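import Pool.Agent.Work.MP_d1e9a6_pr_h36.Final
import Pool.Agent.Work.MP_d1e9a6_pr_h26.ScStep

/-!
The topology block of MP_d1e9a6_pr.
-/

open scoped unitInterval Topology
open Set

noncomputable section

namespace Pool.Agent.Work.MP_d1e9a6_pr.Top

/-- **Main theorem of the topology block**. -/
theorem topTarget : TopTarget := by
  intro n m K hK hne hdim hSC hCoh hTop hB
  refine top_core hK ?_ m hdim hCoh hTop hB
  intro Y _ f hf
  exact H26.sc_step hK hne hSC hf

end Pool.Agent.Work.MP_d1e9a6_pr.Top
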