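import Mathlib

/-!
Interface of the topology block of MP_d1e9a6_pr: abstract complexes on `Fin n`, their
realizations, ordered simplices, cohomology hypotheses, the wedge of spheres.
-/



noncomputable section

namespace Pool.Agent.Work.MP_d1e9a6_pr.Top

/-- An abstract simplicial complex on `Fin n`: nonempty faces, closed under nonempty subsets. -/
structure IsCpx {n : ℕ} (K : Set (Finset (Fin n))) : Prop where
  ne : ∀ s ∈ K, s.Nonempty
  down : ∀ s ∈ K, ∀ t, t ⊆ s → t.Nonempty → t ∈ K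

/-- The support of a point. -/
def supp {n : ℕ} (x : Fin n → ℝ) : Finset (Fin n) := by
  classical exact Finset.univ.filter (fun i => x i ≠ 0)

/-- The geometric realization, as a set of points of `ℝ^n`. -/
def real {n : ℕ} (K : Set (Finset (Fin n))) : Set (Fin n → ℝ) :=
  {x | (∀ i, 0 ≤ x i) ∧ ∑ i, x i = 1 ∧ supp x ∈ K}

/-- The subcomplex of faces with at most `c` vertices (the `(c-1)`-skeleton). -/
def skc {n : ℕ} (K : Set (Finset (Fin n))) (c : ℕ) : Set (Finset (Fin n)) :=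
  {s | s ∈ K ∧ s.card ≤ c}

/-- Ordered `j`-simplices of `K`: strictly increasing lists of `j+1` vertices. -/
def Simp {n : ℕ} (K : Set (Finset (Fin n))) (j : ℕ) : Type :=
  {τ : Fin (j + 1) ↪o Fin n // Finset.univ.map τ.toEmbedding ∈ K}

instance {n : ℕ} (K : Set (Finset (Fin n))) (j : ℕ) : Finite (Simp K j) := by
  unfold Simp; infer_instance

instance {n : ℕ} (K : Set (Finset (Fin n))) (j : ℕ) : Fintype (Simp K j) :=
  Fintype.ofFinite _

/-- The `i`-th face of an ordered simplex. -/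
def Simp.face {n : ℕ} {K : Set (Finset (Fin n))} (hK : IsCpx K) {j : ℕ} (τ : Simp K (j + 1))
    (i : Fin (j + 2)) : Simp K j :=
  ⟨(Fin.succAboveOrderEmb i).trans τ.1, by
    refine hK.down _ τ.2 _ ?_ ?_
    · intro v hv
      simp only [Finset.mem_map, Finset.mem_univ, true_and] at hv ⊢
      obtain ⟨a, rfl⟩ := hv
      exact ⟨i.succAbove a, rfl⟩
    · exact ⟨τ.1 (i.succAbove 0), by
        simp only [Finset.mem_map, Finset.mem_univ, true_and]
        exact ⟨0, rfl⟩⟩⟩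

/-- `H^{j+1}(K; A) = 0` for every abelian group `A` (ordered cochains). -/
def Coh {n : ℕ} {K : Set (Finset (Fin n))} (hK : IsCpx K) (j : ℕ) : Prop :=
  ∀ (A : Type) [AddCommGroup A] (γ : Simp K (j + 1) → A),
    (∀ ρ : Simp K (j + 2), ∑ i : Fin (j + 3), ((-1 : ℤ) ^ (i : ℕ)) • γ (ρ.face hK i) = 0) →
    ∃ c : Simp K j → A, ∀ τ : Simp K (j + 1),
      γ τ = ∑ i : Fin (j + 2), ((-1 : ℤ) ^ (i : ℕ)) • c (τ.face hK i)

/-- integral cycles of dimension `j + 1` -/
def IsCyc {n : ℕ} {K : Set (Finset (Fin n))} (hK : IsCpx K) {j : ℕ}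
    (z : Simp K (j + 1) → ℤ) : Prop :=
  ∀ (A : Type) [AddCommGroup A] (c : Simp K j → A),
    ∑ τ, z τ • (∑ i : Fin (j + 2), ((-1 : ℤ) ^ (i : ℕ)) • c (τ.face hK i)) = 0

/-- A cochain in degree `j + 1` vanishing on all integral cycles is a coboundary
(any coefficients). -/
def CohTop {n : ℕ} {K : Set (Finset (Fin n))} (hK : IsCpx K) (j : ℕ) : Prop :=
  ∀ (A : Type) [AddCommGroup A] (γ : Simp K (j + 1) → A),
    (∀ z : Simp K (j + 1) → ℤ, IsCyc hK z → ∑ τ, z τ • γ τ = 0) →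
    ∃ c : Simp K j → A, ∀ τ : Simp K (j + 1),
      γ τ = ∑ i : Fin (j + 2), ((-1 : ℤ) ^ (i : ℕ)) • c (τ.face hK i)

/-- A basis of the cycles of dimension `j + 1` with a retraction `R` onto them. -/
def CycBasis {n : ℕ} {K : Set (Finset (Fin n))} (hK : IsCpx K) (j : ℕ) : Prop :=
  ∃ (m : ℕ) (B : Fin m → Simp K (j + 1) → ℤ) (R : Simp K (j + 1) → Fin m → ℤ),
    (∀ a, IsCyc hK (B a)) ∧
    (∀ a b, ∑ τ, B a τ * R τ b = if a = b then 1 else 0) ∧
    (∀ z : Simp K (j + 1) → ℤ, IsCyc hK z → ∀ τ, z τ = ∑ a, (∑ σ, z σ * R σ a) * B a τ)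

/-- Combinatorial simple connectivity: cocycles on ordered edges with values in any group
are coboundaries, and any two vertices are joined by edges. -/
def SC {n : ℕ} (K : Set (Finset (Fin n))) : Prop :=
  (∀ a b : Fin n, {a} ∈ K → {b} ∈ K → Relation.ReflTransGen (fun x y => {x, y} ∈ K) a b) ∧
  ∀ (G : Type) [Group G] (e : Fin n → Fin n → G),
    (∀ a b c : Fin n, {a, b, c} ∈ K → e a b * e b c = e a c) →
    ∃ s : Fin n → G, ∀ a b : Fin n, {a, b} ∈ K → e a b = (s a)⁻¹ * s b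

/-- The wedge of `m` spheres of dimension `k`, as in the frozen statement. -/
def wedge (m k : ℕ) : Set (Fin m × Fin (k + 1) → ℝ) :=
  {y | y = 0 ∨ ∃ i : Fin m, (∀ j : Fin m, ∀ t : Fin (k + 1), j ≠ i → y (j, t) = 0) ∧
    ∑ t : Fin (k + 1), (y (i, t)) ^ 2 = 2 * y (i, 0)}

/-- Main theorem of the topology block (target). `k = m + 3`. -/
def TopTarget : Prop :=
  ∀ (n m : ℕ) (K : Set (Finset (Fin n))) (hK : IsCpx K), K.Nonempty →
    (∀ s ∈ K, s.card ≤ m + 4) → SC K →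
    (∀ j, 1 ≤ j → j ≤ m + 1 → Coh hK j) → CohTop hK (m + 2) → CycBasis hK (m + 2) →
    ∃ N : ℕ, Nonempty (ContinuousMap.HomotopyEquiv (real K) (wedge N (m + 3)))

end Pool.Agent.Work.MP_d1e9a6_pr.Top
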