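import Pool.Agent.Work.MP_d1e9a6_pr_h36.Fill

/-!
The map `I^j → Δ^j`, `t_0 = 1 - x_0`, `t_1 = x_0 (1 - x_1)`, ..., `t_j = x_0 ... x_{j-1}`.
-/

open scoped unitInterval Topology
open Set

noncomputable section

namespace Pool.Agent.Work.MP_d1e9a6_pr.Top

/-- barycentric coordinates -/
def bary : (j : ℕ) → (Fin j → I) → Fin (j + 1) → ℝ
  | 0, _ => fun _ => 1
  | j + 1, x => Fin.cons (1 - (x 0 : ℝ)) (fun i => (x 0 : ℝ) * bary j (fun l => x l.succ) i)

@[simp] lemma bary_zero (x : Fin 0 → I) (i : Fin 1) : bary 0 x i = 1 := rfl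

@[simp] lemma bary_succ_zero {j : ℕ} (x : Fin (j + 1) → I) : bary (j + 1) x 0 = 1 - (x 0 : ℝ) := rfl

@[simp] lemma bary_succ_succ {j : ℕ} (x : Fin (j + 1) → I) (i : Fin (j + 1)) :
    bary (j + 1) x i.succ = (x 0 : ℝ) * bary j (fun l => x l.succ) i := by
  simp [bary]

lemma continuous_bary (j : ℕ) (i : Fin (j + 1)) : Continuous fun x => bary j x i := by
  induction j with
  | zero => simp only [bary_zero]; exact continuous_const
  | succ j ih =>
    refine Fin.cases ?_ (fun l => ?_) i
    · simp only [bary_succ_zero]; fun_prop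
    · simp only [bary_succ_succ]
      have := (ih l).comp (continuous_pi fun l : Fin j => continuous_apply (A := fun _ => I)
        (l.succ : Fin (j + 1)))
      exact (by fun_prop : Continuous fun x : Fin (j + 1) → I => ((x 0 : I) : ℝ)).mul this

lemma bary_nonneg (j : ℕ) (x : Fin j → I) (i : Fin (j + 1)) : 0 ≤ bary j x i := by
  induction j with
  | zero => simp
  | succ j ih =>
    refine Fin.cases ?_ (fun l => ?_) i
    · have := (x 0).2.2; simp only [bary_succ_zero]; linarith
    · simp only [bary_succ_succ]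
      exact mul_nonneg (x 0).2.1 (ih _ _)

lemma bary_sum (j : ℕ) (x : Fin j → I) : ∑ i, bary j x i = 1 := by
  induction j with
  | zero => simp
  | succ j ih =>
    rw [Fin.sum_univ_succ]
    simp only [bary_succ_zero, bary_succ_succ]
    rw [← Finset.mul_sum, ih]; ring

lemma fc_zero_tail {j : ℕ} (b : Bool) (w : Fin j → I) :
    (fun l : Fin j => fc 0 b w l.succ) = w := by
  funext l
  simp [fc, Fin.insertNth_zero']

lemma fc_succ_zero {j : ℕ} (i : Fin (j + 1)) (b : Bool) (w : Fin (j + 1) → I) :
    fc i.succ b w 0 = w 0 := by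
  have := fc_succAbove i.succ b w 0
  simpa using this

lemma fc_succ_tail {j : ℕ} (i : Fin (j + 1)) (b : Bool) (w : Fin (j + 1) → I) :
    (fun l : Fin (j + 1) => fc i.succ b w l.succ) = fc i b (fun l => w l.succ) := by
  funext l
  by_cases h : l = i
  · subst h; rw [fc_same, fc_same]
  · obtain ⟨l', rfl⟩ := Fin.exists_succAbove_eq h
    rw [fc_succAbove]
    have := fc_succAbove i.succ b w l'.succ
    rw [← this, Fin.succ_succAbove_succ]

/-- face `x_i = 1` -/
lemma bary_face_true (j : ℕ) (i : Fin (j + 1)) (w : Fin j → I) (l : Fin (j + 2)) :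
    bary (j + 1) (fc i true w) l =
      (i.castSucc.insertNth (0 : ℝ) (bary j w) : Fin (j + 2) → ℝ) l := by
  induction j with
  | zero =>
    have hi : i = 0 := Fin.fin_one_eq_zero i
    subst hi
    rw [show ((0 : Fin 1).castSucc) = 0 from rfl, Fin.insertNth_zero']
    refine Fin.cases ?_ (fun l => ?_) l
    · simp
    · simp
  | succ j ih =>
    refine Fin.cases ?_ (fun i => ?_) i
    · rw [show ((0 : Fin (j + 2)).castSucc) = 0 from rfl, Fin.insertNth_zero']
      refine Fin.cases ?_ (fun l => ?_) l
      · simp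
      · rw [bary_succ_succ, fc_same, fc_zero_tail]; simp
    · rw [← Fin.succ_castSucc]
      have hc : (i.castSucc.succ.insertNth (0 : ℝ) (bary (j + 1) w) : Fin (j + 3) → ℝ) =
          Fin.cons (bary (j + 1) w 0) (i.castSucc.insertNth (0 : ℝ) (Fin.tail (bary (j + 1) w))) := by
        conv_lhs => rw [← Fin.cons_self_tail (bary (j + 1) w)]
        exact Fin.insertNth_succ_cons _ _ _ _
      rw [hc]
      refine Fin.cases ?_ (fun l => ?_) l
      · rw [bary_succ_zero, fc_succ_zero]; simp
      · rw [bary_succ_succ, fc_succ_zero, fc_succ_tail, ih, Fin.cons_succ]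
        by_cases h : l = i.castSucc
        · subst h; simp
        · obtain ⟨l', rfl⟩ := Fin.exists_succAbove_eq h
          simp [Fin.tail]

/-- face `x_{last} = 0` -/
lemma bary_face_last (j : ℕ) (w : Fin j → I) (l : Fin (j + 2)) :
    bary (j + 1) (fc (Fin.last j) false w) l =
      ((Fin.last (j + 1)).insertNth (0 : ℝ) (bary j w) : Fin (j + 2) → ℝ) l := by
  induction j with
  | zero =>
    rw [show (Fin.last 0) = 0 from rfl]
    refine Fin.cases ?_ (fun l => ?_) l
    · rw [bary_succ_zero, fc_same]
      rw [show (0 : Fin 2) = (Fin.last 1).succAbove 0 from rfl, Fin.insertNth_apply_succAbove]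
      simp
    · have : l = 0 := Subsingleton.elim _ _
      subst this
      rw [bary_succ_succ, fc_same]
      rw [show (Fin.succ 0 : Fin 2) = Fin.last 1 from rfl, Fin.insertNth_apply_same]
      simp
  | succ j ih =>
    rw [← Fin.succ_last, ← Fin.succ_last]
    have hc : ((Fin.last (j + 1)).succ.insertNth (0 : ℝ) (bary (j + 1) w) : Fin (j + 3) → ℝ) =
        Fin.cons (bary (j + 1) w 0)
          ((Fin.last (j + 1)).insertNth (0 : ℝ) (Fin.tail (bary (j + 1) w))) := by
      conv_lhs => rw [← Fin.cons_self_tail (bary (j + 1) w)]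
      exact Fin.insertNth_succ_cons _ _ _ _
    rw [hc]
    refine Fin.cases ?_ (fun l => ?_) l
    · rw [bary_succ_zero, fc_succ_zero]; simp
    · rw [bary_succ_succ, fc_succ_zero, fc_succ_tail, ih, Fin.cons_succ]
      by_cases h : l = Fin.last (j + 1)
      · subst h; rw [Fin.insertNth_apply_same, Fin.insertNth_apply_same]; simp
      · obtain ⟨l', rfl⟩ := Fin.exists_succAbove_eq h
        rw [Fin.insertNth_apply_succAbove, Fin.insertNth_apply_succAbove]
        simp [Fin.tail]

/-- face `x_i = 0`: all later coordinates vanish -/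
lemma bary_eq_zero (j : ℕ) (x : Fin j → I) (i : Fin j) (h : x i = 0) (l : Fin (j + 1))
    (hl : i.castSucc < l) : bary j x l = 0 := by
  induction j with
  | zero => exact i.elim0
  | succ j ih =>
    revert h hl
    refine Fin.cases ?_ (fun l => ?_) l
    · intro _ hl; exact absurd hl (Fin.not_lt_zero _)
    · intro h hl
      rw [bary_succ_succ]
      revert h hl
      refine Fin.cases ?_ (fun i => ?_) i
      · intro h _; rw [h]; simp
      · intro h hl
        rw [ih (fun l => x l.succ) i h l ?_, mul_zero]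
        rw [← Fin.succ_castSucc, Fin.succ_lt_succ_iff] at hl
        exact hl

lemma bary_pos (j : ℕ) (x : Fin j → I) (h : x ∉ Cube.boundary (Fin j)) (l : Fin (j + 1)) :
    0 < bary j x l := by
  induction j with
  | zero => simp
  | succ j ih =>
    have h0 : x 0 ≠ 0 := fun h0 => h ⟨0, Or.inl h0⟩
    have h1 : x 0 ≠ 1 := fun h0 => h ⟨0, Or.inr h0⟩
    have h0' : (0 : ℝ) < x 0 := lt_of_le_of_ne (x 0).2.1 (fun hh => h0 (Subtype.ext hh.symm))
    have h1' : (x 0 : ℝ) < 1 := lt_of_le_of_ne (x 0).2.2 (fun hh => h1 (Subtype.ext hh))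
    refine Fin.cases ?_ (fun l => ?_) l
    · simp only [bary_succ_zero]; linarith
    · simp only [bary_succ_succ]
      refine mul_pos h0' (ih _ ?_ _)
      rintro ⟨i, hi⟩
      exact h ⟨i.succ, hi⟩

lemma bary_exists_zero (j : ℕ) (x : Fin j → I) (h : x ∈ Cube.boundary (Fin j)) :
    ∃ l, bary j x l = 0 := by
  obtain ⟨i, b, hi⟩ := mem_bd_iff.1 h
  cases j with
  | zero => exact i.elim0
  | succ j =>
    cases b
    · exact ⟨i.succ, bary_eq_zero _ x i hi _ Fin.castSucc_lt_succ⟩
    · refine ⟨i.castSucc, ?_⟩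
      rw [← fc_rem hi, bary_face_true, Fin.insertNth_apply_same]

lemma bary_inj (j : ℕ) (x x' : Fin j → I) (h : x ∉ Cube.boundary (Fin j))
    (hx : bary j x = bary j x') : x = x' := by
  induction j with
  | zero => exact Subsingleton.elim _ _
  | succ j ih =>
    have h00 := congrFun hx 0
    simp only [bary_succ_zero] at h00
    have e0 : x 0 = x' 0 := Subtype.ext (by linarith)
    have h0 : x 0 ≠ 0 := fun h0 => h ⟨0, Or.inl h0⟩
    have h0' : (x 0 : ℝ) ≠ 0 := fun hh => h0 (Subtype.ext hh)
    have e1 : (fun l => x l.succ) = fun l => x' (Fin.succ l) := by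
      apply ih
      · rintro ⟨i, hi⟩
        exact h ⟨i.succ, hi⟩
      · funext l
        have := congrFun hx l.succ
        simp only [bary_succ_succ] at this
        rw [← e0] at this
        exact mul_left_cancel₀ h0' this
    funext i
    refine Fin.cases e0 (fun i => ?_) i
    exact congrFun e1 i

lemma bary_surj (j : ℕ) (t : Fin (j + 1) → ℝ) (h0 : ∀ i, 0 ≤ t i) (h1 : ∑ i, t i = 1) :
    ∃ x : Fin j → I, bary j x = t := by
  induction j with
  | zero =>
    refine ⟨fun i => i.elim0, ?_⟩
    funext i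
    have : i = 0 := Fin.fin_one_eq_zero i
    subst this
    simpa using h1.symm
  | succ j ih =>
    rw [Fin.sum_univ_succ] at h1
    have hs : 0 ≤ ∑ i : Fin (j + 1), t i.succ := Finset.sum_nonneg fun i _ => h0 _
    have hle : t 0 ≤ 1 := by linarith
    let a : I := ⟨1 - t 0, by linarith, by linarith [h0 0]⟩
    by_cases ha : 1 - t 0 = 0
    · refine ⟨fun i => if i = 0 then 0 else 0, ?_⟩
      have hz : ∀ i : Fin (j + 1), t i.succ = 0 := by
        intro i
        have : ∑ i : Fin (j + 1), t i.succ = 0 := by linarith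
        exact (Finset.sum_eq_zero_iff_of_nonneg (fun i _ => h0 _)).1 this i (Finset.mem_univ _)
      funext l
      refine Fin.cases ?_ (fun l => ?_) l
      · simp only [bary_succ_zero, if_true]
        simp; linarith
      · simp only [bary_succ_succ, if_true]
        rw [hz]; simp
    · have hpos : 0 < 1 - t 0 := lt_of_le_of_ne (by linarith) (Ne.symm ha)
      obtain ⟨x, hx⟩ := ih (fun i => t i.succ / (1 - t 0))
        (fun i => div_nonneg (h0 _) hpos.le)
        (by rw [← Finset.sum_div]; rw [div_eq_one_iff_eq ha]; linarith)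
      refine ⟨Fin.cons a x, ?_⟩
      funext l
      refine Fin.cases ?_ (fun l => ?_) l
      · simp only [bary_succ_zero, Fin.cons_zero, a]; ring
      · simp only [bary_succ_succ, Fin.cons_zero, Fin.cons_succ, a]
        rw [hx]
        field_simp

end Pool.Agent.Work.MP_d1e9a6_pr.Top
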