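import Pool.Agent.Work.MP_d1e9a6_pr_h36.Cube

/-!
Gluing along cells and the homotopy extension property for a relative cell structure.
-/

open scoped unitInterval Topology
open Set

noncomputable section

namespace Pool.Agent.Work.MP_d1e9a6_pr.Top

/-- A relative cell structure: `B` is obtained from `A` by attaching `j`-cells `c τ`. -/
structure CellStr {X : Type*} [TopologicalSpace X] (A B : Set X) (j : ℕ) {T : Type*}
    (c : T → C(Fin j → I, X)) : Prop where
  closed : IsClosed A
  sub : A ⊆ B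
  mem : ∀ τ x, c τ x ∈ B
  bd : ∀ τ x, x ∈ Cube.boundary (Fin j) → c τ x ∈ A
  int : ∀ τ x, x ∉ Cube.boundary (Fin j) → c τ x ∉ A
  inj : ∀ τ τ' x x', x ∉ Cube.boundary (Fin j) → c τ x = c τ' x' → τ = τ' ∧ x = x'
  cover : ∀ y ∈ B, y ∈ A ∨ ∃ τ x, c τ x = y

lemma contOn_range {Z X Y : Type*} [TopologicalSpace Z] [TopologicalSpace X]
    [TopologicalSpace Y] [CompactSpace Z] [T2Space X] (q : C(Z, X)) {G : X → Y}
    (h : Continuous fun z => G (q z)) : ContinuousOn G (range q) := by
  rw [continuousOn_iff_isClosed]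
  intro t ht
  refine ⟨q '' ((fun z => G (q z)) ⁻¹' t), ?_, ?_⟩
  · exact ((ht.preimage h).isCompact.image q.continuous).isClosed
  · ext y
    constructor
    · rintro ⟨hy, ⟨z, rfl⟩⟩
      exact ⟨⟨z, hy, rfl⟩, ⟨z, rfl⟩⟩
    · rintro ⟨⟨z, hz, rfl⟩, h2⟩
      exact ⟨hz, h2⟩

variable {X Y S T : Type*} [TopologicalSpace X] [TopologicalSpace Y] [TopologicalSpace S]
  {A B : Set X} {j : ℕ} {c : T → C(Fin j → I, X)}

theorem CellStr.glue [T2Space X] [CompactSpace S] [T2Space S] [Finite T]
    (h : CellStr A B j c) {G : X × S → Y} (hG : ContinuousOn G (A ×ˢ univ))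
    (F : T → C((Fin j → I) × S, Y))
    (hF : ∀ τ x s, x ∈ Cube.boundary (Fin j) → F τ (x, s) = G (c τ x, s)) :
    ∃ G' : X × S → Y, ContinuousOn G' (B ×ˢ univ) ∧ (∀ y ∈ A, ∀ s, G' (y, s) = G (y, s)) ∧
      ∀ τ x s, G' (c τ x, s) = F τ (x, s) := by
  classical
  let G' : X × S → Y := fun p =>
    if p.1 ∈ A then G p else
      if hp : ∃ τ x, c τ x = p.1 then F hp.choose (hp.choose_spec.choose, p.2) else G p
  have hA : ∀ y ∈ A, ∀ s, G' (y, s) = G (y, s) := by
    intro y hy s
    simp only [G']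
    rw [if_pos hy]
  have hC : ∀ τ x s, G' (c τ x, s) = F τ (x, s) := by
    intro τ x s
    by_cases hx : x ∈ Cube.boundary (Fin j)
    · rw [hA _ (h.bd τ x hx), hF τ x s hx]
    · have hp : ∃ τ' x', c τ' x' = c τ x := ⟨τ, x, rfl⟩
      have h1 : G' (c τ x, s) = F hp.choose (hp.choose_spec.choose, s) := by
        simp only [G']
        rw [if_neg (h.int τ x hx), dif_pos hp]
      rw [h1]
      have h2 := hp.choose_spec.choose_spec
      generalize hp.choose_spec.choose = x' at h2 ⊢
      generalize hp.choose = τ' at h2 ⊢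
      obtain ⟨rfl, rfl⟩ := h.inj τ τ' x x' hx h2.symm
      rfl
  refine ⟨G', ?_, hA, hC⟩
  have hsub : B ×ˢ (univ : Set S) ⊆ (A ×ˢ univ) ∪ ⋃ τ : T,
      range ((c τ).prodMap (ContinuousMap.id S)) := by
    rintro ⟨y, s⟩ ⟨hy, -⟩
    rcases h.cover y hy with h1 | ⟨τ, x, h1⟩
    · exact Or.inl ⟨h1, mem_univ _⟩
    · refine Or.inr (mem_iUnion.2 ⟨τ, ⟨(x, s), ?_⟩⟩)
      simp only [ContinuousMap.prodMap_apply, Prod.map_apply, ContinuousMap.id_apply]
      rw [← h1]
  refine ContinuousOn.mono ?_ hsub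
  have hclosed : ∀ τ : T, IsClosed (range ((c τ).prodMap (ContinuousMap.id S))) := fun τ =>
    (isCompact_range (map_continuous _)).isClosed
  apply ContinuousOn.union_of_isClosed
  · refine hG.congr ?_
    rintro ⟨y, s⟩ ⟨hy, -⟩
    exact hA y hy s
  · apply (locallyFinite_of_finite _).continuousOn_iUnion hclosed
    intro τ
    apply contOn_range
    refine (F τ).continuous.congr ?_
    rintro ⟨x, s⟩
    exact (hC τ x s).symm
  · exact h.closed.prod isClosed_univ
  · exact isClosed_iUnion_of_finite hclosed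

/-- homotopy extension along one layer of cells -/
theorem CellStr.hep [T2Space X] [Finite T] (h : CellStr A B j c)
    {G : X × I → Y} (hG : ContinuousOn G (A ×ˢ univ)) {g : X → Y} (hg : ContinuousOn g B)
    (hGg : ∀ y ∈ A, G (y, 0) = g y) :
    ∃ G' : X × I → Y, ContinuousOn G' (B ×ˢ univ) ∧ (∀ y ∈ A, ∀ s, G' (y, s) = G (y, s)) ∧
      ∀ y ∈ B, G' (y, 0) = g y := by
  classical
  let H : T → (Fin j → I) × I → Y := fun τ p => if p.2 = 0 then g (c τ p.1) else G (c τ p.1, p.2)
  have hHbd : ∀ τ, ∀ x ∈ Cube.boundary (Fin j), ∀ t, H τ (x, t) = G (c τ x, t) := by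
    intro τ x hx t
    simp only [H]
    split_ifs with ht
    · rw [ht, hGg _ (h.bd τ x hx)]
    · rfl
  have hH : ∀ τ, ContinuousOn (H τ) (box j) := by
    intro τ
    have hbox : box j = {p | p.2 = 0} ∪ {p | p.1 ∈ Cube.boundary (Fin j)} := rfl
    rw [hbox]
    apply ContinuousOn.union_of_isClosed
    · have : ContinuousOn (fun p : (Fin j → I) × I => g (c τ p.1)) {p | p.2 = 0} := by
        refine ContinuousOn.comp hg ?_ ?_ (t := B)
        · exact ((c τ).continuous.comp continuous_fst).continuousOn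
        · intro p _; exact h.mem τ p.1
      refine this.congr ?_
      intro p hp
      have hp' : p.2 = 0 := hp
      simp only [H]
      rw [if_pos hp']
    · have : ContinuousOn (fun p : (Fin j → I) × I => G (c τ p.1, p.2))
          {p | p.1 ∈ Cube.boundary (Fin j)} := by
        refine ContinuousOn.comp hG ?_ ?_ (t := A ×ˢ univ)
        · exact (((c τ).continuous.comp continuous_fst).prodMk continuous_snd).continuousOn
        · intro p hp; exact ⟨h.bd τ p.1 hp, mem_univ _⟩
      refine this.congr ?_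
      rintro ⟨x, t⟩ hp
      exact hHbd τ x hp t
    · exact isClosed_eq continuous_snd continuous_const
    · exact (isClosed_bd j).preimage continuous_fst
  obtain ⟨G', h1, h2, h3⟩ := h.glue hG (fun τ => ⟨fun p => H τ (rmap p), continuous_comp_rmap (hH τ)⟩)
    (by
      intro τ x s hx
      simp only [ContinuousMap.coe_mk]
      rw [rmap_of_mem (Or.inr hx), hHbd τ x hx])
  refine ⟨G', h1, h2, ?_⟩
  intro y hy
  rcases h.cover y hy with h4 | ⟨τ, x, rfl⟩
  · rw [h2 y h4, hGg y h4]
  · rw [h3]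
    simp only [ContinuousMap.coe_mk]
    rw [rmap_of_mem (Or.inl rfl)]
    simp [H]

end Pool.Agent.Work.MP_d1e9a6_pr.Top
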