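import Pool.Agent.Work.MP_d1e9a6_pr_h36.Bary
import Pool.Agent.Work.MP_d1e9a6_pr_h36.Glue
import Pool.Agent.Work.MP_d1e9a6_pr_h36.Defs

/-!
The cells of the realization of an abstract complex.
-/

open scoped unitInterval Topology
open Set

noncomputable section

namespace Pool.Agent.Work.MP_d1e9a6_pr.Top

variable {n : ℕ} {K : Set (Finset (Fin n))}

lemma mem_supp {x : Fin n → ℝ} {i : Fin n} : i ∈ supp x ↔ x i ≠ 0 := by
  simp [supp]

/-- the point of `ℝ^n` with coordinates `bary x` on the vertices of `τ` -/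
def cellFun {j : ℕ} (τ : Fin (j + 1) → Fin n) (x : Fin j → I) : Fin n → ℝ :=
  fun v => ∑ l, if τ l = v then bary j x l else 0

lemma continuous_cellFun {j : ℕ} (τ : Fin (j + 1) → Fin n) : Continuous (cellFun τ) := by
  refine continuous_pi fun v => continuous_finsetSum _ fun l _ => ?_
  split_ifs
  · exact continuous_bary j l
  · exact continuous_const

lemma cellFun_apply {j : ℕ} {τ : Fin (j + 1) → Fin n} (hτ : Function.Injective τ)
    (x : Fin j → I) (l : Fin (j + 1)) : cellFun τ x (τ l) = bary j x l := by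
  unfold cellFun
  rw [Finset.sum_eq_single l]
  · simp
  · intro l' _ hl'
    rw [if_neg (fun h => hl' (hτ h))]
  · intro h; exact absurd (Finset.mem_univ l) h

lemma cellFun_apply_of_notMem {j : ℕ} {τ : Fin (j + 1) → Fin n}
    (x : Fin j → I) {v : Fin n} (hv : ∀ l, τ l ≠ v) : cellFun τ x v = 0 := by
  unfold cellFun
  exact Finset.sum_eq_zero fun l _ => if_neg (hv l)

lemma cellFun_nonneg {j : ℕ} (τ : Fin (j + 1) → Fin n) (x : Fin j → I) (v : Fin n) :
    0 ≤ cellFun τ x v := by
  unfold cellFun
  refine Finset.sum_nonneg fun l _ => ?_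
  split_ifs
  · exact bary_nonneg j x l
  · exact le_refl _

lemma cellFun_sum {j : ℕ} (τ : Fin (j + 1) → Fin n) (x : Fin j → I) :
    ∑ v, cellFun τ x v = 1 := by
  unfold cellFun
  rw [Finset.sum_comm]
  simp only [Finset.sum_ite_eq, Finset.mem_univ, if_true]
  exact bary_sum j x

lemma cellFun_supp_subset {j : ℕ} (τ : Fin (j + 1) ↪o Fin n) (x : Fin j → I) :
    supp (cellFun τ x) ⊆ Finset.univ.map τ.toEmbedding := by
  intro v hv
  rw [mem_supp] at hv
  simp only [Finset.mem_map, Finset.mem_univ, true_and]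
  by_contra hcon
  push Not at hcon
  exact hv (cellFun_apply_of_notMem x hcon)

lemma supp_nonempty {x : Fin n → ℝ} (h : ∑ i, x i = 1) : (supp x).Nonempty := by
  by_contra hcon
  rw [Finset.not_nonempty_iff_eq_empty] at hcon
  have : ∀ i, x i = 0 := by
    intro i
    by_contra hi
    have := mem_supp.2 hi
    rw [hcon] at this
    exact absurd this (Finset.notMem_empty i)
  simp [this] at h

/-- the characteristic map of an ordered simplex -/
def cell (hK : IsCpx K) {j : ℕ} (τ : Simp K j) : C(Fin j → I, real K) where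
  toFun x := ⟨cellFun τ.1 x, cellFun_nonneg _ _, cellFun_sum _ _,
    hK.down _ τ.2 _ (cellFun_supp_subset _ _) (supp_nonempty (cellFun_sum _ _))⟩
  continuous_toFun := (continuous_cellFun _).subtype_mk _

lemma cell_coe (hK : IsCpx K) {j : ℕ} (τ : Simp K j) (x : Fin j → I) :
    ((cell hK τ x : real K) : Fin n → ℝ) = cellFun τ.1 x := rfl

/-- points of `|K|` whose support has at most `c` elements (the `(c-1)`-skeleton) -/
def sk (K : Set (Finset (Fin n))) (c : ℕ) : Set (real K) := {x | (supp x.1).card ≤ c}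

lemma sk_mono {c c' : ℕ} (h : c ≤ c') : sk K c ⊆ sk K c' := fun _ hx => le_trans hx h

lemma sk_zero : sk K 0 = ∅ := by
  ext x
  simp only [sk, Set.mem_ofPred_eq, nonpos_iff_eq_zero, Finset.card_eq_zero, mem_empty_iff_false,
    iff_false]
  exact (supp_nonempty x.2.2.1).ne_empty

lemma sk_univ {c : ℕ} (h : ∀ s ∈ K, s.card ≤ c) : sk K c = univ := by
  ext x
  simp only [sk, Set.mem_ofPred_eq, mem_univ, iff_true]
  exact h _ x.2.2.2

lemma isClosed_sk (c : ℕ) : IsClosed (sk K c) := by
  have : sk K c = ⋃ s : {s : Finset (Fin n) // s.card ≤ c},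
      {x : real K | ∀ i, i ∉ s.1 → (x : Fin n → ℝ) i = 0} := by
    ext x
    simp only [sk, Set.mem_ofPred_eq, mem_iUnion]
    constructor
    · intro hx
      refine ⟨⟨supp x.1, hx⟩, ?_⟩
      intro i hi
      by_contra h
      exact hi (mem_supp.2 h)
    · rintro ⟨⟨s, hs⟩, hx⟩
      refine le_trans (Finset.card_le_card ?_) hs
      intro i hi
      by_contra h
      exact mem_supp.1 hi (hx i h)
  rw [this]
  refine isClosed_iUnion_of_finite fun s => ?_
  have h2 : {x : real K | ∀ i, i ∉ s.1 → (x : Fin n → ℝ) i = 0} =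
      ⋂ i : {i // i ∉ s.1}, {x : real K | (x : Fin n → ℝ) i.1 = 0} := by
    ext x; simp
  rw [h2]
  exact isClosed_iInter fun i => isClosed_eq
    ((continuous_apply i.1).comp continuous_subtype_val) continuous_const

lemma cellFun_supp_of_notMem {j : ℕ} (τ : Fin (j + 1) ↪o Fin n) (x : Fin j → I)
    (hx : x ∉ Cube.boundary (Fin j)) :
    supp (cellFun τ x) = Finset.univ.map τ.toEmbedding := by
  apply Finset.Subset.antisymm (cellFun_supp_subset τ x)
  intro v hv
  simp only [Finset.mem_map, Finset.mem_univ, true_and] at hv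
  obtain ⟨l, rfl⟩ := hv
  rw [mem_supp]
  change cellFun τ x (τ l) ≠ 0
  rw [cellFun_apply τ.injective]
  exact (bary_pos j x hx l).ne'

lemma cellFun_card_of_mem {j : ℕ} (τ : Fin (j + 1) ↪o Fin n) (x : Fin j → I)
    (hx : x ∈ Cube.boundary (Fin j)) : (supp (cellFun τ x)).card ≤ j := by
  obtain ⟨l, hl⟩ := bary_exists_zero j x hx
  have : supp (cellFun τ x) ⊆ (Finset.univ.erase l).map τ.toEmbedding := by
    intro v hv
    have h1 := cellFun_supp_subset τ x hv
    simp only [Finset.mem_map, Finset.mem_univ, true_and] at h1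
    obtain ⟨l', rfl⟩ := h1
    simp only [Finset.mem_map, Finset.mem_erase, Finset.mem_univ, and_true]
    refine ⟨l', ?_, rfl⟩
    rintro rfl
    rw [mem_supp] at hv
    apply hv
    change cellFun τ x (τ l') = 0
    rw [cellFun_apply τ.injective, hl]
  refine (Finset.card_le_card this).trans ?_
  rw [Finset.card_map, Finset.card_erase_of_mem (Finset.mem_univ _)]
  simp

lemma orderEmb_eq_of_range {j : ℕ} {τ τ' : Fin (j + 1) ↪o Fin n}
    (h : Finset.univ.map τ.toEmbedding = Finset.univ.map τ'.toEmbedding) : τ = τ' := by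
  have h1 : (Finset.univ.map τ.toEmbedding).card = j + 1 := by simp
  have h2 := Finset.orderEmbOfFin_unique' h1 (f := τ) (fun x => by simp)
  have h3 := Finset.orderEmbOfFin_unique' h1 (f := τ') (fun x => by rw [h]; simp)
  rw [h2, h3]

theorem cellStr (hK : IsCpx K) (j : ℕ) :
    CellStr (sk K j) (sk K (j + 1)) j (fun τ : Simp K j => cell hK τ) where
  closed := isClosed_sk j
  sub := sk_mono (Nat.le_succ j)
  mem τ x := by
    refine (Finset.card_le_card (cellFun_supp_subset τ.1 x)).trans ?_
    simp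
  bd τ x hx := cellFun_card_of_mem τ.1 x hx
  int τ x hx h := by
    have h1 : (supp (cellFun τ.1 x)).card ≤ j := h
    rw [cellFun_supp_of_notMem τ.1 x hx] at h1
    simp at h1
  inj τ τ' x x' hx h := by
    have h0 : cellFun τ.1 x = cellFun τ'.1 x' := congrArg Subtype.val h
    have h1 : supp (cellFun τ.1 x) = supp (cellFun τ'.1 x') := by rw [h0]
    have h2 := cellFun_supp_subset τ'.1 x'
    rw [← h1, cellFun_supp_of_notMem τ.1 x hx] at h2
    have h3 := Finset.eq_of_subset_of_card_le h2 (by simp)
    have h4 : τ = τ' := Subtype.ext (orderEmb_eq_of_range h3)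
    subst h4
    refine ⟨rfl, bary_inj j x x' hx ?_⟩
    funext l
    rw [← cellFun_apply τ.1.injective x l, ← cellFun_apply τ.1.injective x' l, h0]
  cover y hy := by
    by_cases hj : (supp y.1).card ≤ j
    · exact Or.inl hj
    · right
      have hc : (supp y.1).card = j + 1 := le_antisymm hy (by omega)
      let τ : Fin (j + 1) ↪o Fin n := (supp y.1).orderEmbOfFin hc
      have hτ : Finset.univ.map τ.toEmbedding = supp y.1 := by
        apply Finset.eq_of_subset_of_card_le
        · intro v hv
          simp only [Finset.mem_map, Finset.mem_univ, true_and] at hv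
          obtain ⟨l, rfl⟩ := hv
          exact Finset.orderEmbOfFin_mem _ hc l
        · rw [hc]; simp
      obtain ⟨x, hx⟩ := bary_surj j (fun l => y.1 (τ l)) (fun l => y.2.1 _) (by
        have h1 : ∑ i, y.1 i = ∑ i ∈ supp y.1, y.1 i := by
          symm
          apply Finset.sum_subset (Finset.subset_univ _)
          intro i _ hi
          by_contra h
          exact hi (mem_supp.2 h)
        rw [← y.2.2.1, h1, ← hτ, Finset.sum_map]
        rfl)
      refine ⟨⟨τ, by rw [hτ]; exact y.2.2.2⟩, x, ?_⟩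
      apply Subtype.ext
      change cellFun τ x = y.1
      funext v
      by_cases hv : v ∈ supp y.1
      · have hv' := hv
        rw [← hτ] at hv'
        simp only [Finset.mem_map, Finset.mem_univ, true_and] at hv'
        obtain ⟨l, rfl⟩ := hv'
        change cellFun τ x (τ l) = y.1 (τ l)
        rw [cellFun_apply τ.injective, hx]
      · rw [cellFun_apply_of_notMem]
        · by_contra h
          exact hv (mem_supp.2 (Ne.symm h))
        · intro l hl
          apply hv
          rw [← hτ]
          simp only [Finset.mem_map, Finset.mem_univ, true_and]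
          exact ⟨l, hl⟩

/-! ### Faces of cells -/

lemma cellFun_of_bary {j : ℕ} (τ : Fin (j + 2) → Fin n) (p : Fin (j + 2)) (x : Fin (j + 1) → I)
    (w : Fin j → I)
    (h : ∀ l, bary (j + 1) x l = (p.insertNth (0 : ℝ) (bary j w) : Fin (j + 2) → ℝ) l) :
    cellFun τ x = cellFun (fun l => τ (p.succAbove l)) w := by
  funext v
  unfold cellFun
  rw [Fin.sum_univ_succAbove _ p]
  rw [h p, Fin.insertNth_apply_same]
  simp only [ite_self, zero_add]
  refine Finset.sum_congr rfl fun l _ => ?_
  rw [h (p.succAbove l), Fin.insertNth_apply_succAbove]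

lemma cell_face_true (hK : IsCpx K) {j : ℕ} (τ : Simp K (j + 1)) (i : Fin (j + 1))
    (w : Fin j → I) :
    cell hK τ (fc i true w) = cell hK (τ.face hK i.castSucc) w := by
  apply Subtype.ext
  rw [cell_coe, cell_coe, cellFun_of_bary τ.1 i.castSucc (fc i true w) w
    (bary_face_true j i w)]
  rfl

lemma cell_face_last (hK : IsCpx K) {j : ℕ} (τ : Simp K (j + 1)) (w : Fin j → I) :
    cell hK τ (fc (Fin.last j) false w) = cell hK (τ.face hK (Fin.last (j + 1))) w := by
  apply Subtype.ext
  rw [cell_coe, cell_coe, cellFun_of_bary τ.1 (Fin.last (j + 1)) (fc (Fin.last j) false w) w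
    (bary_face_last j w)]
  rfl

lemma cell_face_false (hK : IsCpx K) {j : ℕ} (τ : Simp K (j + 1)) (i : Fin (j + 1))
    (hi : i ≠ Fin.last j) (w : Fin j → I) :
    cell hK τ (fc i false w) ∈ sk K j := by
  have hlt : (i : ℕ) < j := by
    have := i.2
    have h2 : (i : ℕ) ≠ j := fun h => hi (Fin.ext h)
    omega
  have hz := bary_eq_zero (j + 1) (fc i false w) i (fc_same i false w)
  have : supp (cellFun τ.1 (fc i false w)) ⊆
      (Finset.univ.filter (fun l : Fin (j + 2) => l ≤ i.castSucc)).map τ.1.toEmbedding := by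
    intro v hv
    have h1 := cellFun_supp_subset τ.1 _ hv
    simp only [Finset.mem_map, Finset.mem_univ, true_and] at h1
    obtain ⟨l', rfl⟩ := h1
    simp only [Finset.mem_map, Finset.mem_filter, Finset.mem_univ, true_and]
    refine ⟨l', ?_, rfl⟩
    by_contra hcon
    rw [mem_supp] at hv
    apply hv
    change cellFun τ.1 _ (τ.1 l') = 0
    rw [cellFun_apply τ.1.injective, hz l' (lt_of_not_ge hcon)]
  have h2 : (supp (cellFun τ.1 (fc i false w))).card ≤ i + 1 := by
    refine (Finset.card_le_card this).trans ?_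
    rw [Finset.card_map]
    have : Finset.univ.filter (fun l : Fin (j + 2) => l ≤ i.castSucc) = Finset.Iic i.castSucc := by
      ext l; simp
    rw [this, Fin.card_Iic]
    simp
  exact h2.trans hlt

/-- The homotopy extension property for skeleta. -/
theorem sk_hep (hK : IsCpx K) {Y : Type*} [TopologicalSpace Y] {c c' : ℕ} (hcc : c ≤ c')
    {G : real K × I → Y} (hG : ContinuousOn G (sk K c ×ˢ univ)) {g : real K → Y}
    (hg : ContinuousOn g (sk K c')) (hGg : ∀ y ∈ sk K c, G (y, 0) = g y) :
    ∃ G' : real K × I → Y, ContinuousOn G' (sk K c' ×ˢ univ) ∧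
      (∀ y ∈ sk K c, ∀ s, G' (y, s) = G (y, s)) ∧ ∀ y ∈ sk K c', G' (y, 0) = g y := by
  induction c', hcc using Nat.le_induction with
  | base => exact ⟨G, hG, fun _ _ _ => rfl, hGg⟩
  | succ c' hcc ih =>
    obtain ⟨G1, h1, h2, h3⟩ := ih (hg.mono (sk_mono (Nat.le_succ c')))
    obtain ⟨G2, h4, h5, h6⟩ := (cellStr hK c').hep h1 hg h3
    refine ⟨G2, h4, ?_, h6⟩
    intro y hy s
    rw [h5 y (sk_mono hcc hy), h2 y hy]

end Pool.Agent.Work.MP_d1e9a6_pr.Top
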