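import Mathlib

/-!
Cubes: the retraction of `I^n × I` onto `I^n × 0 ∪ ∂I^n × I`, fillable families of generalized
loops on the faces of a cube, and the homotopy addition theorem for cubes.
-/

open scoped unitInterval Topology Topology.Homotopy
open Set

noncomputable section

namespace Pool.Agent.Work.MP_d1e9a6_pr.Top

/-- The two endpoints of the unit interval. -/
def ep (b : Bool) : I := if b then 1 else 0

@[simp] lemma ep_false : ep false = 0 := rfl
@[simp] lemma ep_true : ep true = 1 := rfl

lemma mem_bd_iff {n : ℕ} {x : Fin n → I} :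
    x ∈ Cube.boundary (Fin n) ↔ ∃ i b, x i = ep b := by
  constructor
  · rintro ⟨i, h | h⟩
    · exact ⟨i, false, h⟩
    · exact ⟨i, true, h⟩
  · rintro ⟨i, b, h⟩
    cases b
    · exact ⟨i, Or.inl h⟩
    · exact ⟨i, Or.inr h⟩

/-! ### The retraction -/

/-- sup norm distance from the centre, in the coordinates `2 x - 1`. -/
def rad {n : ℕ} (x : Fin n → I) : ℝ := ‖(fun i => 2 * (x i : ℝ) - 1)‖

lemma continuous_rad {n : ℕ} : Continuous (rad : (Fin n → I) → ℝ) := by
  unfold rad; fun_prop

lemma rad_nonneg {n : ℕ} (x : Fin n → I) : 0 ≤ rad x := norm_nonneg _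

lemma abs_le_rad {n : ℕ} (x : Fin n → I) (i : Fin n) : |2 * (x i : ℝ) - 1| ≤ rad x := by
  have := norm_le_pi_norm (fun i => 2 * (x i : ℝ) - 1) i
  simpa [rad] using this

lemma rad_le_one {n : ℕ} (x : Fin n → I) : rad x ≤ 1 := by
  unfold rad
  rw [pi_norm_le_iff_of_nonneg zero_le_one]
  intro i
  have h0 := (x i).2.1
  have h1 := (x i).2.2
  rw [Real.norm_eq_abs, abs_le]
  constructor <;> linarith

lemma rad_eq_one {n : ℕ} {x : Fin n → I} (h : x ∈ Cube.boundary (Fin n)) : rad x = 1 := by
  apply le_antisymm (rad_le_one x)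
  obtain ⟨i, hi⟩ := h
  refine le_trans ?_ (abs_le_rad x i)
  rcases hi with hi | hi <;> rw [hi] <;> norm_num

lemma exists_abs_eq_rad {n : ℕ} (x : Fin n → I) (h : 0 < rad x) :
    ∃ i, |2 * (x i : ℝ) - 1| = rad x := by
  by_contra hcon
  push Not at hcon
  have : rad x < rad x := by
    conv_lhs => unfold rad
    rw [pi_norm_lt_iff h]
    intro i
    exact lt_of_le_of_ne (abs_le_rad x i) (hcon i)
  exact lt_irrefl _ this

/-- The scale used in the retraction. -/
def scl {n : ℕ} (p : (Fin n → I) × I) : ℝ := max (rad p.1) (1 - p.2 / 2)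

lemma continuous_scl {n : ℕ} : Continuous (scl : (Fin n → I) × I → ℝ) := by
  unfold scl
  exact (continuous_rad.comp continuous_fst).max (by fun_prop)

lemma half_le_scl {n : ℕ} (p : (Fin n → I) × I) : 1 / 2 ≤ scl p := by
  have := p.2.2.2
  exact le_trans (by linarith) (le_max_right _ _)

lemma scl_pos {n : ℕ} (p : (Fin n → I) × I) : 0 < scl p :=
  lt_of_lt_of_le (by norm_num) (half_le_scl p)

lemma scl_le_one {n : ℕ} (p : (Fin n → I) × I) : scl p ≤ 1 := by
  have := p.2.2.1
  exact max_le (rad_le_one _) (by linarith)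

/-- The retraction of `I^n × I` onto the bottom and the sides. -/
def rmap {n : ℕ} (p : (Fin n → I) × I) : (Fin n → I) × I :=
  (fun i => projIcc (0 : ℝ) 1 zero_le_one (((2 * (p.1 i : ℝ) - 1) / scl p + 1) / 2),
    projIcc (0 : ℝ) 1 zero_le_one (2 - (2 - (p.2 : ℝ)) / scl p))

lemma continuous_rmap {n : ℕ} : Continuous (rmap : (Fin n → I) × I → (Fin n → I) × I) := by
  unfold rmap
  refine Continuous.prodMk ?_ ?_
  · refine continuous_pi fun i => continuous_projIcc.comp ?_
    refine (Continuous.add (Continuous.div (by fun_prop) continuous_scl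
      (fun p => (scl_pos p).ne')) continuous_const).div_const _
  · refine continuous_projIcc.comp ?_
    exact continuous_const.sub (Continuous.div (by fun_prop) continuous_scl
      (fun p => (scl_pos p).ne'))

/-- bottom and sides -/
def box (n : ℕ) : Set ((Fin n → I) × I) := {p | p.2 = 0 ∨ p.1 ∈ Cube.boundary (Fin n)}

lemma rmap_mem {n : ℕ} (p : (Fin n → I) × I) : rmap p ∈ box n := by
  have hp0 := p.2.2.1
  have hp1 := p.2.2.2
  rcases le_total (rad p.1) (1 - p.2 / 2) with h | h
  · left
    have hs : scl p = 1 - p.2 / 2 := max_eq_right h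
    have h2 : (2 - (2 - (p.2 : ℝ)) / scl p) = 0 := by
      have : (1 - (p.2 : ℝ) / 2) ≠ 0 := by linarith
      have h3 : (2 - (p.2 : ℝ)) / (1 - (p.2 : ℝ) / 2) = 2 := by
        rw [div_eq_iff this]; ring
      rw [hs, h3]; ring
    simp only [rmap, h2]
    exact projIcc_left _
  · right
    have hs : scl p = rad p.1 := max_eq_left h
    have hr : 0 < rad p.1 := by linarith
    obtain ⟨i, hi⟩ := exists_abs_eq_rad p.1 hr
    refine ⟨i, ?_⟩
    rcases abs_choice (2 * (p.1 i : ℝ) - 1) with h3 | h3
    · right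
      have : (((2 * (p.1 i : ℝ) - 1) / scl p + 1) / 2) = 1 := by
        rw [hs, ← hi, h3, div_self]
        · norm_num
        · intro h0; rw [h0] at hi; simp at hi; linarith
      simp only [rmap, this]
      exact projIcc_right _
    · left
      have : (((2 * (p.1 i : ℝ) - 1) / scl p + 1) / 2) = 0 := by
        rw [hs, ← hi, h3, div_neg, div_self]
        · norm_num
        · intro h0; rw [h0] at hi; simp at hi; linarith
      simp only [rmap, this]
      exact projIcc_left _

lemma rmap_of_scl {n : ℕ} {p : (Fin n → I) × I} (h : scl p = 1) : rmap p = p := by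
  have h1 : ∀ i, (((2 * (p.1 i : ℝ) - 1) / scl p + 1) / 2) = p.1 i := by
    intro i; rw [h]; ring
  have h2 : 2 - (2 - (p.2 : ℝ)) / scl p = p.2 := by rw [h]; ring
  simp only [rmap, h1, h2, projIcc_val]

lemma rmap_of_mem {n : ℕ} {p : (Fin n → I) × I} (h : p ∈ box n) : rmap p = p := by
  apply rmap_of_scl
  apply le_antisymm (scl_le_one p)
  rcases h with h | h
  · refine le_trans ?_ (le_max_right _ _)
    rw [h]; simp
  · refine le_trans ?_ (le_max_left _ _)
    rw [rad_eq_one h]

lemma continuous_comp_rmap {n : ℕ} {Y : Type*} [TopologicalSpace Y]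
    {G : (Fin n → I) × I → Y} (hG : ContinuousOn G (box n)) :
    Continuous fun p => G (rmap p) :=
  hG.comp_continuous continuous_rmap rmap_mem

lemma isClosed_bd (n : ℕ) : IsClosed (Cube.boundary (Fin n)) := by
  have : Cube.boundary (Fin n) = ⋃ i, ({x | x i = 0} ∪ {x | x i = 1}) := by
    ext x; simp [Cube.boundary]
  rw [this]
  refine isClosed_iUnion_of_finite fun i => ?_
  exact (isClosed_eq (continuous_apply i) continuous_const).union
    (isClosed_eq (continuous_apply i) continuous_const)

end Pool.Agent.Work.MP_d1e9a6_pr.Top
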