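import Pool.Agent.Work.MP_d1e9a6_pr_h36.Cube

/-!
Fillable families of generalized loops on the faces of a cube and the homotopy addition
theorem for cubes.
-/

open scoped unitInterval Topology Topology.Homotopy
open Set

noncomputable section

namespace Pool.Agent.Work.MP_d1e9a6_pr.Top

variable {Y : Type*} [TopologicalSpace Y] {y0 : Y}

lemma ep_inj {b c : Bool} (h : ep b = ep c) : b = c := by
  cases b <;> cases c <;> simp_all [ep]

/-- face inclusion -/
def fc {n : ℕ} (i : Fin (n + 1)) (b : Bool) (w : Fin n → I) : Fin (n + 1) → I :=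
  i.insertNth (ep b) w

@[simp] lemma fc_same {n : ℕ} (i : Fin (n + 1)) (b : Bool) (w : Fin n → I) :
    fc i b w i = ep b := by simp [fc]

@[simp] lemma fc_succAbove {n : ℕ} (i : Fin (n + 1)) (b : Bool) (w : Fin n → I) (j : Fin n) :
    fc i b w (i.succAbove j) = w j := by simp [fc]

lemma fc_mem_bd {n : ℕ} (i : Fin (n + 1)) (b : Bool) (w : Fin n → I) :
    fc i b w ∈ Cube.boundary (Fin (n + 1)) :=
  mem_bd_iff.2 ⟨i, b, fc_same i b w⟩

lemma continuous_fc {n : ℕ} (i : Fin (n + 1)) (b : Bool) : Continuous (fc i b) :=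
  continuous_const.finInsertNth i continuous_id

/-- forget a coordinate -/
def rem {n : ℕ} (i : Fin (n + 1)) (x : Fin (n + 1) → I) : Fin n → I :=
  fun j => x (i.succAbove j)

lemma continuous_rem {n : ℕ} (i : Fin (n + 1)) : Continuous (rem i) := by
  unfold rem; fun_prop

lemma fc_rem {n : ℕ} {i : Fin (n + 1)} {b : Bool} {x : Fin (n + 1) → I} (h : x i = ep b) :
    fc i b (rem i x) = x := by
  unfold fc rem
  rw [← h]
  exact Fin.insertNth_self_removeNth i x

@[simp] lemma rem_fc {n : ℕ} (i : Fin (n + 1)) (b : Bool) (w : Fin n → I) :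
    rem i (fc i b w) = w := by
  funext j; simp [rem]

lemma rem_mem_bd {n : ℕ} {i k : Fin (n + 1)} {b : Bool} {x : Fin (n + 1) → I}
    (h : x i = ep b) (hik : i ≠ k) : rem k x ∈ Cube.boundary (Fin n) := by
  obtain ⟨j, rfl⟩ := Fin.exists_succAbove_eq hik
  exact mem_bd_iff.2 ⟨j, b, h⟩

/-- A family of generalized loops on the faces of a cube is fillable. -/
def Fillable {n : ℕ} (f : Fin (n + 1) → Bool → Ω^ (Fin n) Y y0) : Prop :=
  ∃ F : C(Fin (n + 1) → I, Y), ∀ i b w, F (fc i b w) = f i b w

lemma homotopic_iff {n : ℕ} {u v : Ω^ (Fin n) Y y0} :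
    GenLoop.Homotopic u v ↔ ∃ H : C(I × (Fin n → I), Y), (∀ x, H (0, x) = u x) ∧
      (∀ x, H (1, x) = v x) ∧ ∀ t, ∀ x ∈ Cube.boundary (Fin n), H (t, x) = y0 := by
  constructor
  · rintro ⟨H⟩
    refine ⟨H.toContinuousMap, fun x => H.apply_zero x, fun x => H.apply_one x, ?_⟩
    intro t x hx
    have := H.eq_fst t hx
    exact this.trans (u.2 x hx)
  · rintro ⟨H, h0, h1, hb⟩
    refine ⟨⟨⟨H, h0, h1⟩, ?_⟩⟩
    intro t x hx
    exact (hb t x hx).trans (u.2 x hx).symm

theorem Fillable.congr {n : ℕ} {f g : Fin (n + 1) → Bool → Ω^ (Fin n) Y y0}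
    (hf : Fillable f) (h : ∀ i b, GenLoop.Homotopic (f i b) (g i b)) : Fillable g := by
  classical
  obtain ⟨F, hF⟩ := hf
  choose H H0 H1 Hb using fun i b => homotopic_iff.1 (h i b)
  let G : (Fin (n + 1) → I) × I → Y := fun p =>
    if hp : ∃ i b, p.1 i = ep b then
      H hp.choose hp.choose_spec.choose (p.2, rem hp.choose p.1) else F p.1
  have key : ∀ x t i b, x i = ep b → G (x, t) = H i b (t, rem i x) := by
    intro x t i b hx
    have hp : ∃ i b, x i = ep b := ⟨i, b, hx⟩
    have hG : G (x, t) = H hp.choose hp.choose_spec.choose (t, rem hp.choose x) := by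
      simp only [G]
      rw [dif_pos hp]
    rw [hG]
    have hc := hp.choose_spec.choose_spec
    generalize hp.choose_spec.choose = c at hc ⊢
    generalize hp.choose = k at hc ⊢
    by_cases hk : k = i
    · subst hk
      rw [hx] at hc
      rw [ep_inj hc]
    · rw [Hb _ _ _ _ (rem_mem_bd hx (Ne.symm hk)), Hb _ _ _ _ (rem_mem_bd hc hk)]
  have hG0 : ∀ x, G (x, 0) = F x := by
    intro x
    by_cases hp : ∃ i b, x i = ep b
    · obtain ⟨i, b, hx⟩ := hp
      rw [key x 0 i b hx, H0, ← hF, fc_rem hx]
    · simp only [G]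
      rw [dif_neg hp]
  have hbox : box (n + 1) = {p | p.2 = 0} ∪ ⋃ ib : Fin (n + 1) × Bool,
      {p : (Fin (n + 1) → I) × I | p.1 ib.1 = ep ib.2} := by
    ext p
    simp only [box, mem_bd_iff, mem_ofPred_eq, mem_union, mem_iUnion, Prod.exists]
  have hcont : ContinuousOn G (box (n + 1)) := by
    rw [hbox]
    apply ContinuousOn.union_of_isClosed
    · have : ContinuousOn (fun p : (Fin (n + 1) → I) × I => F p.1) {p | p.2 = 0} := by fun_prop
      refine this.congr ?_
      rintro ⟨x, t⟩ hp
      simp only [mem_ofPred_eq] at hp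
      subst hp
      exact hG0 x
    · apply (locallyFinite_of_finite _).continuousOn_iUnion
      · rintro ⟨i, b⟩
        exact isClosed_eq (by fun_prop) continuous_const
      · rintro ⟨i, b⟩
        have : Continuous (fun p : (Fin (n + 1) → I) × I => H i b (p.2, rem i p.1)) := by
          have := continuous_rem i
          fun_prop
        refine this.continuousOn.congr ?_
        rintro ⟨x, t⟩ hp
        exact key x t i b hp
    · exact isClosed_eq (by fun_prop) continuous_const
    · refine isClosed_iUnion_of_finite ?_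
      rintro ⟨i, b⟩
      exact isClosed_eq (by fun_prop) continuous_const
  refine ⟨⟨fun x => G (rmap (x, 1)), (continuous_comp_rmap hcont).comp (by fun_prop)⟩, ?_⟩
  intro i b w
  change G (rmap (fc i b w, 1)) = _
  rw [rmap_of_mem (Or.inr (fc_mem_bd i b w)), key _ _ i b (fc_same i b w), H1, rem_fc]

/-! ### Trivial cubes and connection cubes -/

/-- The family with `u` on the two faces in direction `k` and constant elsewhere. -/
theorem fillable_trivial {n : ℕ} (k : Fin (n + 1)) (u : Ω^ (Fin n) Y y0) :
    Fillable (fun i _ => if i = k then u else GenLoop.const) := by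
  refine ⟨⟨fun x => u (rem k x), ?_⟩, ?_⟩
  · exact u.1.continuous.comp (continuous_rem k)
  · intro i b w
    simp only [ContinuousMap.coe_mk]
    split_ifs with h
    · subst h; rw [rem_fc]
    · exact u.2 _ (rem_mem_bd (fc_same i b w) h)

/-- the map of the connection cube -/
def conn {n : ℕ} (i : Fin (n + 1)) (x : Fin (n + 2) → I) : Fin (n + 1) → I :=
  fun j => max (x (i.castSucc.succAbove j)) (x (i.succ.succAbove j))

lemma continuous_conn {n : ℕ} (i : Fin (n + 1)) : Continuous (conn i) := by
  unfold conn
  exact continuous_pi fun j => (continuous_apply _).max (continuous_apply _)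

lemma succAbove_eq_of_ne {n : ℕ} {i j : Fin (n + 1)} (h : j ≠ i) :
    i.castSucc.succAbove j = i.succ.succAbove j := by
  rcases lt_or_gt_of_ne h with h | h
  · rw [Fin.succAbove_of_castSucc_lt _ _ (by simpa using h),
      Fin.succAbove_of_castSucc_lt _ _ (by
        rw [Fin.lt_def] at h ⊢; simp; omega)]
  · rw [Fin.succAbove_of_le_castSucc _ _ (by
        rw [Fin.lt_def] at h; rw [Fin.le_def]; simp; omega),
      Fin.succAbove_of_le_castSucc _ _ (by
        rw [Fin.lt_def] at h; rw [Fin.le_def]; simp; omega)]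

lemma succAbove_castSucc_self' {n : ℕ} (i : Fin (n + 1)) :
    i.castSucc.succAbove i = i.succ := by
  rw [Fin.succAbove_of_le_castSucc _ _ (le_refl _)]

lemma succAbove_succ_self' {n : ℕ} (i : Fin (n + 1)) :
    i.succ.succAbove i = i.castSucc := by
  rw [Fin.succAbove_of_castSucc_lt _ _ (Fin.castSucc_lt_succ)]

lemma conn_self {n : ℕ} (i : Fin (n + 1)) (x : Fin (n + 2) → I) :
    conn i x i = max (x i.succ) (x i.castSucc) := by
  unfold conn; rw [succAbove_castSucc_self', succAbove_succ_self']

lemma conn_ne {n : ℕ} {i j : Fin (n + 1)} (h : j ≠ i) (x : Fin (n + 2) → I) :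
    conn i x j = x (i.castSucc.succAbove j) := by
  unfold conn; rw [← succAbove_eq_of_ne h, max_self]

theorem fillable_conn {n : ℕ} (k : Fin (n + 1)) (u : Ω^ (Fin (n + 1)) Y y0) :
    Fillable (fun i b => if (i = k.castSucc ∨ i = k.succ) ∧ b = false then u
      else GenLoop.const) := by
  refine ⟨⟨fun x => u (conn k x), u.1.continuous.comp (continuous_conn k)⟩, ?_⟩
  intro i b w
  simp only [ContinuousMap.coe_mk]
  by_cases h1 : i = k.castSucc
  · subst h1
    cases b
    · rw [if_pos (by simp)]
      congr 1
      funext j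
      by_cases hj : j = k
      · subst hj
        rw [conn_self, fc_same]
        have := fc_succAbove j.castSucc false w j
        rw [succAbove_castSucc_self'] at this
        rw [this]
        exact max_eq_left (w j).2.1
      · rw [conn_ne hj, fc_succAbove]
    · rw [if_neg (by simp)]
      apply u.2
      refine mem_bd_iff.2 ⟨k, true, ?_⟩
      rw [conn_self, fc_same]
      exact max_eq_right (fc k.castSucc true w k.succ).2.2
  · by_cases h2 : i = k.succ
    · subst h2
      cases b
      · rw [if_pos (by simp)]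
        congr 1
        funext j
        by_cases hj : j = k
        · subst hj
          rw [conn_self, fc_same]
          have := fc_succAbove j.succ false w j
          rw [succAbove_succ_self'] at this
          rw [this]
          exact max_eq_right (w j).2.1
        · rw [conn_ne hj, succAbove_eq_of_ne hj, fc_succAbove]
      · rw [if_neg (by simp)]
        apply u.2
        refine mem_bd_iff.2 ⟨k, true, ?_⟩
        rw [conn_self, fc_same]
        exact max_eq_left (fc k.succ true w k.castSucc).2.2
    · rw [if_neg (by tauto)]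
      apply u.2
      obtain ⟨j, hj⟩ := Fin.exists_succAbove_eq h1
      have hjk : j ≠ k := by
        rintro rfl
        rw [succAbove_castSucc_self'] at hj
        exact h2 hj.symm
      refine mem_bd_iff.2 ⟨j, b, ?_⟩
      rw [conn_ne hjk, hj, fc_same]

end Pool.Agent.Work.MP_d1e9a6_pr.Top
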