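import Pool.Agent.Work.MP_d1e9a6_pr_h36.Stages
import Pool.Agent.Work.MP_d1e9a6_pr_helper2.WedgeMaps

/-!
Final assembly of the topology block.
-/

open scoped unitInterval Topology Topology.Homotopy
open Set

noncomputable section

namespace Pool.Agent.Work.MP_d1e9a6_pr.Top

variable {n : ℕ} {K : Set (Finset (Fin n))}

lemma homotopic_of {X Y : Type*} [TopologicalSpace X] [TopologicalSpace Y] {f g : C(X, Y)}
    (H : C(X × I, Y)) (h0 : ∀ y, H (y, 0) = f y) (h1 : ∀ y, H (y, 1) = g y) : f.Homotopic g :=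
  ⟨⟨⟨fun p => H (p.2, p.1), H.continuous.comp continuous_swap⟩, h0, h1⟩⟩

/-- the collapse of the `(k-1)`-skeleton, with values in the wedge of all `k`-simplices -/
lemma exists_collapse (hK : IsCpx K) (k : ℕ) (hk : 0 < k) (hdim : ∀ s ∈ K, s.card ≤ k + 1)
    {M : ℕ} (e : Simp K k ≃ Fin M) :
    ∃ q : C(real K, wedge M k), (∀ y ∈ sk K k, q y = wzero M k) ∧
      ∀ τ x, q (cell hK τ x) = wcell M k hk (e τ) x := by
  obtain ⟨G', h1, h2, h3⟩ := (cellStr hK k).glue (S := Unit) (G := fun _ => wzero M k)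
    continuousOn_const
    (fun τ => (wcell M k hk (e τ)).comp ⟨fun p : (Fin k → I) × Unit => p.1, continuous_fst⟩)
    (by
      intro τ x s hx
      exact (wcell_eq_zero M k hk (e τ) x).2 hx)
  rw [sk_univ hdim, univ_prod_univ] at h1
  have hc := continuousOn_univ.1 h1
  exact ⟨⟨fun x => G' (x, ()), hc.comp (continuous_id.prodMk continuous_const)⟩,
    fun y hy => h2 y hy (), fun τ x => h3 τ x ()⟩

/-- the standard loop of a sphere of the wedge -/
def sph (N k : ℕ) (hk : 0 < k) (i : Fin N) : Ω^ (Fin k) (wedge N k) (wzero N k) :=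
  ⟨wcell N k hk i, fun x hx => (wcell_eq_zero N k hk i x).2 hx⟩

lemma sph_apply (N k : ℕ) (hk : 0 < k) (i : Fin N) (x : Fin k → I) :
    sph N k hk i x = wcell N k hk i x := rfl

theorem top_core (hK : IsCpx K) (hsc : ScStep K) (m : ℕ)
    (hdim : ∀ s ∈ K, s.card ≤ m + 4) (hCoh : ∀ j, 1 ≤ j → j ≤ m + 1 → Coh hK j)
    (hTop : CohTop hK (m + 2)) (hB : CycBasis hK (m + 2)) :
    ∃ N : ℕ, Nonempty (ContinuousMap.HomotopyEquiv (real K) (wedge N (m + 3))) := by
  classical
  obtain ⟨y0, g2, g3, H1, H2, hy0, H10, H11, H1A, H20, H21, H2A, hg3⟩ :=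
    stages hK hsc m hdim hCoh
  obtain ⟨m', B, R, hBc, hBR, hBall⟩ := hB
  have hk : 0 < m + 3 := by omega
  let M := Fintype.card (Simp K (m + 3))
  let e : Simp K (m + 3) ≃ Fin M := Fintype.equivFin _
  obtain ⟨q, hqA, hqc⟩ := exists_collapse hK (m + 3) hk hdim e
  -- the map `h`
  obtain ⟨u3, hu3⟩ := exists_loops hK (m + 3) (y0 := y0) (g := g3) g3.continuous.continuousOn hg3
  obtain ⟨h, h0, hc⟩ := exists_wedge_map M (m + 3) hk (fun i => u3 (e.symm i))
  have hc' : ∀ τ x, h (wcell M (m + 3) hk (e τ) x) = u3 τ x := by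
    intro τ x
    rw [hc, e.symm_apply_apply]
  have hqg : ∀ y, h (q y) = g3 y := by
    intro y
    have hy : y ∈ sk K (m + 4) := by rw [sk_univ hdim]; exact mem_univ _
    rcases (cellStr hK (m + 3)).cover y hy with h1 | ⟨τ, x, rfl⟩
    · rw [hqA y h1, h0, hg3 y h1]
    · rw [hqc, hc', hu3]
  -- the maps `β` and `ρ`
  have hbl : ∀ a : Fin m', ∃ b : Ω^ (Fin (m + 3)) (wedge M (m + 3)) (wzero M (m + 3)),
      cls (m := m + 1) b = ∑ τ, B a τ • cls (m := m + 1) (sph M (m + 3) hk (e τ)) :=
    fun a => cls_surj _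
  choose bl hbl using hbl
  obtain ⟨β, β0, βc⟩ := exists_wedge_map m' (m + 3) hk bl
  have hrl : ∀ i : Fin M, ∃ b : Ω^ (Fin (m + 3)) (wedge m' (m + 3)) (wzero m' (m + 3)),
      cls (m := m + 1) b = ∑ a, R (e.symm i) a • cls (m := m + 1) (sph m' (m + 3) hk a) :=
    fun i => cls_surj _
  choose rl hrl using hrl
  obtain ⟨ρ, ρ0, ρc⟩ := exists_wedge_map M (m + 3) hk rl
  have hy0' : y0 ∈ sk K (m + 3) := hy0
  have q0 : q y0 = wzero M (m + 3) := hqA y0 hy0
  have hg2A : ∀ y ∈ sk K (m + 3), g2 y ∈ sk K (m + 3) := by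
    intro y hy; rw [← H11]; exact H1A y hy 1
  -- the class of `ρ` on the standard spheres
  have hρs : ∀ τ : Simp K (m + 3), piMap (m := m + 1) ρ ρ0 (cls (sph M (m + 3) hk (e τ))) =
      ∑ a, R τ a • cls (m := m + 1) (sph m' (m + 3) hk a) := by
    intro τ
    rw [piMap_cls]
    have : push ρ ρ0 (sph M (m + 3) hk (e τ)) = rl (e τ) := by
      apply GenLoop.ext
      intro x
      rw [push_apply, sph_apply, ρc]
    rw [this, hrl, e.symm_apply_apply]
  have hβs : ∀ a : Fin m', piMap (m := m + 1) β β0 (cls (sph m' (m + 3) hk a)) =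
      ∑ τ, B a τ • cls (m := m + 1) (sph M (m + 3) hk (e τ)) := by
    intro a
    rw [piMap_cls]
    have : push β β0 (sph m' (m + 3) hk a) = bl a := by
      apply GenLoop.ext
      intro x
      rw [push_apply, sph_apply, βc]
    rw [this, hbl]
  -- the first composite: `h β ρ q ≃ id`
  have hleft : ((h.comp β).comp (ρ.comp q)).Homotopic (ContinuousMap.id _) := by
    -- `q ≃ β ρ q`
    have hβρ0 : (β.comp ρ) (wzero M (m + 3)) = wzero M (m + 3) := by
      rw [ContinuousMap.comp_apply, ρ0, β0]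
    let u1 : Simp K (m + 3) → Ω^ (Fin (m + 3)) (wedge M (m + 3)) (wzero M (m + 3)) :=
      fun τ => push (β.comp ρ) hβρ0 (sph M (m + 3) hk (e τ))
    have hu1 : ∀ τ, cls (m := m + 1) (u1 τ) =
        ∑ a, R τ a • ∑ ω, B a ω • cls (m := m + 1) (sph M (m + 3) hk (e ω)) := by
      intro τ
      have : u1 τ = push β β0 (push ρ ρ0 (sph M (m + 3) hk (e τ))) := rfl
      rw [this, ← piMap_cls (m := m + 1) β β0, ← piMap_cls (m := m + 1) ρ ρ0, hρs, map_sum]
      refine Finset.sum_congr rfl fun a _ => ?_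
      rw [map_zsmul, hβs]
    obtain ⟨c, hcc⟩ := hTop (PiA (m + 1) (wedge M (m + 3)) (wzero M (m + 3)))
      (fun τ => cls (m := m + 1) (u1 τ) - cls (m := m + 1) (sph M (m + 3) hk (e τ))) (by
        intro z hz
        simp only [smul_sub, Finset.sum_sub_distrib, hu1]
        rw [sub_eq_zero]
        have e1 : ∀ τ, z τ • ∑ a, R τ a • ∑ ω, B a ω •
            cls (m := m + 1) (sph M (m + 3) hk (e ω)) =
            ∑ a, ∑ ω, (z τ * R τ a * B a ω) • cls (m := m + 1) (sph M (m + 3) hk (e ω)) := by
          intro τ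
          rw [Finset.smul_sum]
          refine Finset.sum_congr rfl fun a _ => ?_
          rw [Finset.smul_sum, Finset.smul_sum]
          refine Finset.sum_congr rfl fun ω _ => ?_
          rw [smul_smul, smul_smul]
        simp only [e1]
        rw [Finset.sum_comm]
        have e2 : ∀ a : Fin m', ∑ τ, ∑ ω, (z τ * R τ a * B a ω) •
            cls (m := m + 1) (sph M (m + 3) hk (e ω)) =
            ∑ ω, ((∑ τ, z τ * R τ a) * B a ω) •
              cls (m := m + 1) (sph M (m + 3) hk (e ω)) := by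
          intro a
          rw [Finset.sum_comm]
          refine Finset.sum_congr rfl fun ω _ => ?_
          rw [← Finset.sum_smul, Finset.sum_mul]
        simp only [e2]
        rw [Finset.sum_comm]
        refine Finset.sum_congr rfl fun ω _ => ?_
        rw [← Finset.sum_smul, ← hBall z hz ω])
    choose v hv using fun r => cls_surj (c r)
    obtain ⟨G, k1, k2, -, -⟩ := lemM hK (m + 1) (y0 := wzero M (m + 3)) (g0 := q)
      (g1 := (β.comp ρ).comp q) (fun τ => sph M (m + 3) hk (e τ)) u1 v hqA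
      (by
        intro y hy
        rw [ContinuousMap.comp_apply, hqA y hy, hβρ0])
      (fun τ x => hqc τ x)
      (by
        intro τ x
        rw [ContinuousMap.comp_apply, hqc]
        rfl)
      (by
        intro τ
        rw [hcc τ]
        simp only [hv])
    have hun : sk K (m + 1 + 3) = univ := sk_univ hdim
    rw [hun, univ_prod_univ] at k1
    have k1' := continuousOn_univ.1 k1
    have hq1 : q.Homotopic ((β.comp ρ).comp q) :=
      homotopic_of ⟨G, k1'⟩ (fun y => (k2 y (by rw [hun]; exact mem_univ _)).1)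
        (fun y => (k2 y (by rw [hun]; exact mem_univ _)).2)
    have hq2 : (h.comp q).Homotopic (h.comp ((β.comp ρ).comp q)) :=
      ContinuousMap.Homotopic.comp (ContinuousMap.Homotopic.refl h) hq1
    have hq3 : h.comp q = g3 := by
      ext1 y
      exact hqg y
    have hid2 : (ContinuousMap.id (real K)).Homotopic g2 := homotopic_of H1 H10 H11
    have hid3 : g2.Homotopic g3 := homotopic_of H2 H20 H21
    have hq4 : g3.Homotopic (h.comp ((β.comp ρ).comp q)) := by
      rw [← hq3]; exact hq2
    exact ((hid2.trans hid3).trans hq4).symm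
  -- the difference cochain of `q g3` and `q`
  obtain ⟨d, hd⟩ : ∃ d : Simp K (m + 2) → PiA (m + 1) (wedge M (m + 3)) (wzero M (m + 3)),
      ∀ τ : Simp K (m + 3), cls (m := m + 1) (push q q0 (u3 τ)) =
        cls (m := m + 1) (sph M (m + 3) hk (e τ)) +
        ∑ i : Fin (m + 4), ((-1 : ℤ) ^ (i : ℕ)) • d (τ.face hK i) := by
    -- loops of `q g2`
    obtain ⟨u2, hu2⟩ := exists_loops hK (m + 3) (y0 := wzero M (m + 3)) (g := fun y => q (g2 y))
      (q.comp g2).continuous.continuousOn (fun y hy => hqA _ (hg2A y hy))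
    have hh1 : ∀ τ, cls (m := m + 1) (sph M (m + 3) hk (e τ)) = cls (m := m + 1) (u2 τ) := by
      intro τ
      rw [cls_eq_iff, homotopic_iff]
      refine ⟨⟨fun p => q (H1 (cell hK τ p.2, p.1)), by fun_prop⟩, ?_, ?_, ?_⟩
      · intro x
        simp only [ContinuousMap.coe_mk]
        rw [H10, hqc]; rfl
      · intro x
        simp only [ContinuousMap.coe_mk]
        rw [H11, ← hu2]
      · intro t x hx
        simp only [ContinuousMap.coe_mk]
        exact hqA _ (H1A _ ((cellStr hK (m + 3)).bd τ x hx) t)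
    let v2 : Simp K (m + 2) → Ω^ (Fin (m + 3)) (wedge M (m + 3)) (wzero M (m + 3)) :=
      fun r => ⟨⟨fun w => q (H2 (cell hK r (fun l => w l.succ), w 0)), by
        refine q.continuous.comp (H2.continuous.comp (Continuous.prodMk
          ((cell hK r).continuous.comp ?_) (continuous_apply 0)))
        exact continuous_pi fun l => continuous_apply _⟩, by
        intro w hw
        obtain ⟨i, b, hi⟩ := mem_bd_iff.1 hw
        simp only [ContinuousMap.coe_mk]
        revert hi
        refine Fin.cases ?_ (fun i => ?_) i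
        · intro hi
          rw [hi]
          have hmem : cell hK r (fun l => w l.succ) ∈ sk K (m + 3) :=
            (cellStr hK (m + 2)).mem r _
          cases b
          · rw [ep_false, H20]
            exact hqA _ (hg2A _ hmem)
          · rw [ep_true, H21, hg3 _ hmem, q0]
        · intro hi
          refine hqA _ (H2A _ ((cellStr hK (m + 2)).bd r _ ?_) _)
          exact mem_bd_iff.2 ⟨i, b, hi⟩⟩
    refine ⟨fun r => cls (m := m + 1) (v2 r), ?_⟩
    intro τ
    have hfill := prism_fillable hK (m + 1) (P := fun p => q (H2 p))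
      (q.comp H2).continuous.continuousOn τ (a0 := u2 τ) (a1 := push q q0 (u3 τ)) (v := v2)
      (by intro x; rw [H20, ← hu2])
      (by intro x; rw [H21, push_apply, hu3])
      (by
        intro r x t
        change _ = q (H2 (cell hK r (fun l => (Fin.cons t x : Fin (m + 3) → I) l.succ),
          (Fin.cons t x : Fin (m + 3) → I) 0))
        simp only [Fin.cons_succ, Fin.cons_zero])
      (by intro y hy t; exact hqA _ (H2A y hy t))
    have h1 := (hat _).1 hfill
    rw [alt_prismFam, ← hh1] at h1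
    have h2 : cls (m := m + 1) (push q q0 (u3 τ)) = cls (m := m + 1) (push q q0 (u3 τ)) +
        (cls (m := m + 1) (sph M (m + 3) hk (e τ)) - cls (m := m + 1) (push q q0 (u3 τ)) +
          ∑ i : Fin (m + 1 + 3), ((-1 : ℤ) ^ (i : ℕ)) •
            cls (m := m + 1) (v2 (τ.face hK i))) := by
      rw [h1, add_zero]
    rw [h2]
    abel
  -- the second composite
  have hright : ((ρ.comp q).comp (h.comp β)).Homotopic (ContinuousMap.id _) := by
    have hw0 : (ρ.comp (q.comp h)) (wzero M (m + 3)) = wzero m' (m + 3) := by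
      rw [ContinuousMap.comp_apply, ContinuousMap.comp_apply, h0, q0, ρ0]
    refine wedge_homotopic' m' (m + 3) hk _ _ (y0 := wzero m' (m + 3)) ?_ rfl
      (fun a => push (ρ.comp (q.comp h)) hw0 (bl a)) (fun a => sph m' (m + 3) hk a) ?_ ?_ ?_
    · simp only [ContinuousMap.comp_apply]
      rw [β0, h0, q0, ρ0]
    · intro a x
      simp only [ContinuousMap.comp_apply, push_apply]
      rw [βc]
    · intro a x; rfl
    · intro a
      rw [← cls_eq_iff (m := m + 1), ← piMap_cls (m := m + 1), hbl, map_sum]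
      have e1 : ∀ τ, piMap (m := m + 1) (ρ.comp (q.comp h)) hw0
          (B a τ • cls (sph M (m + 3) hk (e τ))) =
          B a τ • (∑ b, R τ b • cls (m := m + 1) (sph m' (m + 3) hk b)) +
            piMap (m := m + 1) ρ ρ0 (B a τ •
              ∑ i : Fin (m + 4), ((-1 : ℤ) ^ (i : ℕ)) • d (τ.face hK i)) := by
        intro τ
        rw [map_zsmul, piMap_cls]
        have : push (ρ.comp (q.comp h)) hw0 (sph M (m + 3) hk (e τ)) =
            push ρ ρ0 (push q q0 (u3 τ)) := by
          apply GenLoop.ext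
          intro x
          simp only [push_apply, sph_apply, ContinuousMap.comp_apply]
          rw [hc']
        rw [this, ← piMap_cls (m := m + 1) ρ ρ0, hd, map_add, hρs, smul_add, map_zsmul]
      rw [Finset.sum_congr rfl (fun τ _ => e1 τ), Finset.sum_add_distrib, ← map_sum,
        hBc a _ d, map_zero, add_zero]
      have e2 : ∀ τ, B a τ • (∑ b, R τ b • cls (m := m + 1) (sph m' (m + 3) hk b)) =
          ∑ b, (B a τ * R τ b) • cls (m := m + 1) (sph m' (m + 3) hk b) := by
        intro τ
        rw [Finset.smul_sum]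
        refine Finset.sum_congr rfl fun b _ => ?_
        rw [smul_smul]
      simp only [e2]
      rw [Finset.sum_comm]
      simp only [← Finset.sum_smul, hBR]
      simp
  exact ⟨m', ⟨⟨ρ.comp q, h.comp β, hleft, hright⟩⟩⟩

end Pool.Agent.Work.MP_d1e9a6_pr.Top
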