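import Pool.Agent.Work.MP_d1e9a6_pr_h36.Fill

/-!
Stacking of cubes and the homotopy addition theorem for cubes.
-/

open scoped unitInterval Topology Topology.Homotopy
open Set

noncomputable section

set_option linter.unusedSectionVars false

namespace Pool.Agent.Work.MP_d1e9a6_pr.Top

variable {Y : Type*} [TopologicalSpace Y] {y0 : Y}

/-- stacking of two cubes in direction `k` -/
def stackFun {n : ℕ} (k : Fin (n + 1)) (F F' : (Fin (n + 1) → I) → Y) (x : Fin (n + 1) → I) : Y :=
  if (x k : ℝ) ≤ 1 / 2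
    then F (Function.update x k <| Set.projIcc 0 1 zero_le_one (2 * x k))
    else F' (Function.update x k <| Set.projIcc 0 1 zero_le_one (2 * x k - 1))

lemma continuous_stackFun {n : ℕ} (k : Fin (n + 1)) (F F' : C(Fin (n + 1) → I, Y))
    (h : ∀ w, F (fc k true w) = F' (fc k false w)) : Continuous (stackFun k F F') := by
  unfold stackFun
  refine Continuous.if_le ?_ ?_ (by fun_prop) continuous_const ?_
  · refine F.continuous.comp (Continuous.update continuous_id k (continuous_projIcc.comp ?_))
    fun_prop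
  · refine F'.continuous.comp (Continuous.update continuous_id k (continuous_projIcc.comp ?_))
    fun_prop
  · intro x hx
    rw [hx]
    have h1 : Function.update x k (Set.projIcc (0 : ℝ) 1 zero_le_one (2 * (1 / 2))) =
        fc k true (rem k x) := by
      have : Set.projIcc (0 : ℝ) 1 zero_le_one (2 * (1 / 2)) = 1 := by norm_num
      rw [this, ← fc_rem (i := k) (b := true) (x := Function.update x k 1) (by simp)]
      congr 1
      funext j
      simp [rem]
    have h2 : Function.update x k (Set.projIcc (0 : ℝ) 1 zero_le_one (2 * (1 / 2) - 1)) =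
        fc k false (rem k x) := by
      have : Set.projIcc (0 : ℝ) 1 zero_le_one (2 * (1 / 2) - 1) = 0 := by norm_num
      rw [this, ← fc_rem (i := k) (b := false) (x := Function.update x k 0) (by simp)]
      congr 1
      funext j
      simp [rem]
    rw [h1, h2, h]

lemma update_fc_same {n : ℕ} (k : Fin (n + 1)) (b c : Bool) (w : Fin n → I) :
    Function.update (fc k b w) k (ep c) = fc k c w := by
  unfold fc
  exact Fin.update_insertNth (α := fun _ => I) k (ep b) (ep c) w

lemma update_fc_succAbove {n : ℕ} (i : Fin (n + 1)) (b : Bool) (w : Fin n → I) (j : Fin n)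
    (c : I) : Function.update (fc i b w) (i.succAbove j) c = fc i b (Function.update w j c) := by
  unfold fc
  exact (Fin.insertNth_update (α := fun _ => I) i (ep b) j c w).symm

lemma stackFun_false {n : ℕ} (k : Fin (n + 1)) (F F' : (Fin (n + 1) → I) → Y) (w : Fin n → I) :
    stackFun k F F' (fc k false w) = F (fc k false w) := by
  unfold stackFun
  rw [fc_same, if_pos (by simp)]
  have : Set.projIcc (0 : ℝ) 1 zero_le_one (2 * ((ep false : I) : ℝ)) = ep false := by simp
  rw [this, update_fc_same]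

lemma stackFun_true {n : ℕ} (k : Fin (n + 1)) (F F' : (Fin (n + 1) → I) → Y) (w : Fin n → I) :
    stackFun k F F' (fc k true w) = F' (fc k true w) := by
  unfold stackFun
  rw [fc_same, if_neg (by norm_num)]
  have : Set.projIcc (0 : ℝ) 1 zero_le_one (2 * ((ep true : I) : ℝ) - 1) = ep true := by
    norm_num
  rw [this, update_fc_same]

lemma stackFun_side {n : ℕ} (i : Fin (n + 1)) (j : Fin n) (b : Bool)
    {F F' : (Fin (n + 1) → I) → Y} {u v : Ω^ (Fin n) Y y0}
    (hu : ∀ w, F (fc i b w) = u w) (hv : ∀ w, F' (fc i b w) = v w) (w : Fin n → I) :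
    stackFun (i.succAbove j) F F' (fc i b w) = GenLoop.transAt j u v w := by
  unfold stackFun
  rw [fc_succAbove, update_fc_succAbove, update_fc_succAbove, hu, hv]
  rfl

/-! ### Classes -/

/-- The higher homotopy group `π_{m+2}`, written additively. -/
abbrev PiA (m : ℕ) (Y : Type*) [TopologicalSpace Y] (y0 : Y) : Type _ :=
  Additive (HomotopyGroup (Fin (m + 2)) Y y0)

variable {m : ℕ}

/-- the class of a generalized loop -/
def cls (u : Ω^ (Fin (m + 2)) Y y0) : PiA m Y y0 :=
  Additive.ofMul (Quotient.mk (GenLoop.Homotopic.setoid (Fin (m + 2)) y0) u)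

lemma cls_surj (a : PiA m Y y0) : ∃ u : Ω^ (Fin (m + 2)) Y y0, cls u = a := by
  obtain ⟨u, hu⟩ := Quotient.exists_rep (Additive.toMul a)
  exact ⟨u, by unfold cls; rw [hu]; rfl⟩

lemma cls_eq_iff {u v : Ω^ (Fin (m + 2)) Y y0} : cls u = cls v ↔ GenLoop.Homotopic u v :=
  ⟨fun h => Quotient.exact (congrArg Additive.toMul h),
    fun h => congrArg Additive.ofMul (Quotient.sound h)⟩

lemma cls_const : cls (GenLoop.const : Ω^ (Fin (m + 2)) Y y0) = 0 := rfl

lemma cls_transAt (i : Fin (m + 2)) (u v : Ω^ (Fin (m + 2)) Y y0) :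
    cls (GenLoop.transAt i u v) = cls u + cls v :=
  (congrArg Additive.ofMul (HomotopyGroup.mul_spec (i := i) (p := v) (q := u)).symm).trans
    (add_comm (cls v) (cls u))

/-- a family of classes on the faces is filled by some cube -/
def Fill (a : Fin (m + 3) → Bool → PiA m Y y0) : Prop :=
  ∃ f : Fin (m + 3) → Bool → Ω^ (Fin (m + 2)) Y y0, Fillable f ∧ ∀ i b, cls (f i b) = a i b

lemma Fill.fillable {a : Fin (m + 3) → Bool → PiA m Y y0} (h : Fill a)
    {f : Fin (m + 3) → Bool → Ω^ (Fin (m + 2)) Y y0} (hf : ∀ i b, cls (f i b) = a i b) :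
    Fillable f := by
  obtain ⟨g, hg, hga⟩ := h
  exact hg.congr fun i b => cls_eq_iff.1 ((hga i b).trans (hf i b).symm)

/-- alternating sum -/
def alt {A : Type*} [AddCommGroup A] (a : Fin (m + 3) → Bool → A) : A :=
  ∑ i : Fin (m + 3), ((-1 : ℤ) ^ (i : ℕ)) • (a i false - a i true)

/-- stacking on classes -/
def stk {A : Type*} [AddCommGroup A] (k : Fin (m + 3)) (a a' : Fin (m + 3) → Bool → A) :
    Fin (m + 3) → Bool → A :=
  fun i b => if i = k then (if b then a' k true else a k false) else a i b + a' i b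

theorem Fill.stack {a a' : Fin (m + 3) → Bool → PiA m Y y0} (ha : Fill a) (ha' : Fill a')
    (k : Fin (m + 3)) (h : a k true = a' k false) : Fill (stk k a a') := by
  choose f hf using fun i b => cls_surj (a i b)
  choose f1 hf1 using fun i b => cls_surj (a' i b)
  let f' : Fin (m + 3) → Bool → Ω^ (Fin (m + 2)) Y y0 := fun i b =>
    if i = k ∧ b = false then f k true else f1 i b
  have hf' : ∀ i b, cls (f' i b) = a' i b := by
    intro i b
    simp only [f']
    split_ifs with hc
    · rw [hf, hc.1, hc.2, h]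
    · exact hf1 i b
  obtain ⟨F, hF⟩ := ha.fillable hf
  obtain ⟨F', hF'⟩ := ha'.fillable hf'
  have hmatch : ∀ w, F (fc k true w) = F' (fc k false w) := by
    intro w
    rw [hF, hF']
    simp [f']
  -- the faces of the stacked cube
  have hside : ∀ i, i ≠ k → ∃ j, i.succAbove j = k := fun i hi =>
    Fin.exists_succAbove_eq (Ne.symm hi)
  let g : Fin (m + 3) → Bool → Ω^ (Fin (m + 2)) Y y0 := fun i b =>
    if hi : i = k then (if b then f' k true else f k false)
    else GenLoop.transAt (hside i hi).choose (f i b) (f' i b)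
  refine ⟨g, ⟨⟨stackFun k F F', continuous_stackFun k F F' hmatch⟩, ?_⟩, ?_⟩
  · intro i b w
    simp only [ContinuousMap.coe_mk, g]
    split_ifs with hi hb
    · subst hi hb
      rw [stackFun_true, hF']
    · subst hi
      have hb' : b = false := by simpa using hb
      subst hb'
      rw [stackFun_false, hF]
    · have hj := (hside i hi).choose_spec
      generalize (hside i hi).choose = j at hj ⊢
      subst hj
      exact stackFun_side i j b (hF i b) (hF' i b) w
  · intro i b
    simp only [g, stk]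
    split_ifs with hi hb
    · rw [hf']
    · rw [hf]
    · rw [cls_transAt, hf, hf']

theorem Fill.add {a a' : Fin (m + 3) → Bool → PiA m Y y0} (ha : Fill a) (ha' : Fill a')
    (k : Fin (m + 3)) (h : a k true = 0) (h' : a' k false = 0) : Fill (a + a') := by
  have := ha.stack ha' k (h.trans h'.symm)
  convert this using 1
  funext i b
  simp only [stk, Pi.add_apply]
  split_ifs with hi hb
  · subst hi hb; rw [h, zero_add]
  · subst hi
    have hb' : b = false := by simpa using hb
    subst hb'
    rw [h', add_zero]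
  · rfl

/-- single entry -/
def sg {A : Type*} [AddCommGroup A] (i : Fin (m + 3)) (b : Bool) (x : A) :
    Fin (m + 3) → Bool → A := fun i' b' => if i' = i ∧ b' = b then x else 0

lemma fill_zero : Fill (0 : Fin (m + 3) → Bool → PiA m Y y0) := by
  refine ⟨fun _ _ => GenLoop.const, ⟨⟨fun _ => y0, continuous_const⟩, ?_⟩, ?_⟩
  · intro i b w; rfl
  · intro i b; exact cls_const

lemma fill_T (k : Fin (m + 3)) (x : PiA m Y y0) : Fill (sg k false x + sg k true x) := by
  obtain ⟨u, hu⟩ := cls_surj x
  refine ⟨_, fillable_trivial k u, ?_⟩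
  intro i b
  simp only [sg, Pi.add_apply]
  by_cases hi : i = k <;> cases b <;> simp [hi, hu, cls_const]

lemma fill_C (k : Fin (m + 2)) (x : PiA m Y y0) :
    Fill (sg k.castSucc false x + sg k.succ false x) := by
  obtain ⟨u, hu⟩ := cls_surj x
  refine ⟨_, fillable_conn k u, ?_⟩
  intro i b
  simp only [sg, Pi.add_apply]
  have hne : k.castSucc ≠ k.succ := (Fin.castSucc_lt_succ).ne
  by_cases hi : i = k.castSucc
  · subst hi
    cases b <;> simp [hne, hu, cls_const]
  · by_cases hi' : i = k.succ
    · subst hi'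
      cases b <;> simp [hne.symm, hu, cls_const]
    · cases b <;> simp [hi, hi', cls_const]

lemma sg_apply_ne {A : Type*} [AddCommGroup A] {i i' : Fin (m + 3)} (h : i' ≠ i) (b b' : Bool)
    (x : A) : sg i b x i' b' = 0 := by simp [sg, h]

lemma sg_apply_bne {A : Type*} [AddCommGroup A] (i i' : Fin (m + 3)) {b b' : Bool}
    (h : b' ≠ b) (x : A) : sg i b x i' b' = 0 := by simp [sg, h]

lemma sg_add {A : Type*} [AddCommGroup A] (i : Fin (m + 3)) (b : Bool) (x y : A) :
    sg i b (x + y) = sg i b x + sg i b y := by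
  funext i' b'; simp only [sg, Pi.add_apply]; split_ifs <;> simp

lemma sg_zero {A : Type*} [AddCommGroup A] (i : Fin (m + 3)) (b : Bool) :
    sg (m := m) i b (0 : A) = 0 := by
  funext i' b'; simp [sg]

lemma sg_neg {A : Type*} [AddCommGroup A] (i : Fin (m + 3)) (b : Bool) (x : A) :
    sg i b (-x) = - sg i b x := by
  funext i' b'; simp only [sg, Pi.neg_apply]; split_ifs <;> simp

lemma fill_Q0 (j : ℕ) : ∀ (i : Fin (m + 3)), (i : ℕ) = j + 1 → ∀ x : PiA m Y y0,
    Fill (sg i false x + sg 0 false ((-1 : ℤ) ^ ((i : ℕ) + 1) • x)) := by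
  induction j with
  | zero =>
    intro i hi x
    have h := fill_C (y0 := y0) (0 : Fin (m + 2)) x
    have hi' : i = (0 : Fin (m + 2)).succ := by
      apply Fin.ext; rw [hi]; simp
    subst hi'
    have h0 : ((0 : Fin (m + 2)).castSucc : Fin (m + 3)) = 0 := rfl
    rw [h0] at h
    rw [hi]
    norm_num
    rw [add_comm]
    exact h
  | succ j ih =>
    intro i hi x
    have hlt : j + 1 < m + 2 := by have := i.2; omega
    let k : Fin (m + 2) := ⟨j + 1, hlt⟩
    have hik : i = k.succ := by apply Fin.ext; rw [hi]; simp [k]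
    have h1 := ih k.castSucc (by simp [k]) (-x)
    have h2 := fill_C (y0 := y0) k x
    have hne : k.castSucc ≠ k.succ := (Fin.castSucc_lt_succ).ne
    have h0 : k.succ ≠ 0 := Fin.succ_ne_zero k
    have h3 := h2.add h1 k.succ
      (by rw [Pi.add_apply, Pi.add_apply, sg_apply_bne _ _ (by simp), sg_apply_bne _ _ (by simp),
        add_zero])
      (by rw [Pi.add_apply, Pi.add_apply, sg_apply_ne hne.symm, sg_apply_ne h0, add_zero])
    convert h3 using 1
    rw [hik, sg_neg]
    have hpow : ((-1 : ℤ) ^ ((k.succ : ℕ) + 1)) • x = (-1 : ℤ) ^ ((k.castSucc : ℕ) + 1) • (-x) := by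
      simp only [Fin.val_succ, Fin.val_castSucc]
      rw [pow_succ (-1 : ℤ) ((k : ℕ) + 1)]
      simp
    rw [hpow]
    abel

lemma fill_Q0' {i : Fin (m + 3)} (hi : i ≠ 0) (x : PiA m Y y0) :
    Fill (sg i false x + sg 0 false ((-1 : ℤ) ^ ((i : ℕ) + 1) • x)) := by
  have : (i : ℕ) ≠ 0 := fun h => hi (Fin.ext h)
  exact fill_Q0 ((i : ℕ) - 1) i (by omega) x

lemma fill_Q1 (i : Fin (m + 3)) (x : PiA m Y y0) :
    Fill (sg i true x + sg 0 false ((-1 : ℤ) ^ (i : ℕ) • x)) := by
  by_cases hi : i = 0
  · subst hi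
    have := fill_T (y0 := y0) (0 : Fin (m + 3)) x
    rw [add_comm] at this
    simpa using this
  · have h1 := fill_Q0' (y0 := y0) hi (-x)
    have h2 := fill_T (y0 := y0) i x
    have h3 := h1.add h2 0
      (by rw [Pi.add_apply, Pi.add_apply, sg_apply_bne _ _ (by simp), sg_apply_bne _ _ (by simp),
        add_zero])
      (by rw [Pi.add_apply, Pi.add_apply, sg_apply_ne (Ne.symm hi), sg_apply_ne (Ne.symm hi),
        add_zero])
    convert h3 using 1
    rw [sg_neg, pow_succ]
    simp only [mul_neg, mul_one, neg_smul, smul_neg, neg_neg]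
    abel

/-! ### Algebra of `alt` -/

lemma alt_add {A : Type*} [AddCommGroup A] (a a' : Fin (m + 3) → Bool → A) :
    alt (a + a') = alt a + alt a' := by
  unfold alt
  rw [← Finset.sum_add_distrib]
  refine Finset.sum_congr rfl fun i _ => ?_
  rw [← smul_add]
  congr 1
  simp only [Pi.add_apply]
  abel

lemma alt_sg_false {A : Type*} [AddCommGroup A] (i : Fin (m + 3)) (x : A) :
    alt (sg i false x) = (-1 : ℤ) ^ (i : ℕ) • x := by
  unfold alt
  rw [Finset.sum_eq_single i]
  · simp [sg]
  · intro j _ hj; simp [sg, hj]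
  · intro h; exact absurd (Finset.mem_univ i) h

lemma alt_sg_true {A : Type*} [AddCommGroup A] (i : Fin (m + 3)) (x : A) :
    alt (sg i true x) = - ((-1 : ℤ) ^ (i : ℕ) • x) := by
  unfold alt
  rw [Finset.sum_eq_single i]
  · simp [sg]
  · intro j _ hj; simp [sg, hj]
  · intro h; exact absurd (Finset.mem_univ i) h

lemma alt_stk {A : Type*} [AddCommGroup A] (k : Fin (m + 3)) (a a' : Fin (m + 3) → Bool → A)
    (h : a k true = a' k false) : alt (stk k a a') = alt a + alt a' := by
  unfold alt
  rw [← Finset.sum_add_distrib]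
  refine Finset.sum_congr rfl fun i _ => ?_
  rw [← smul_add]
  congr 1
  by_cases hi : i = k
  · subst hi
    simp only [stk, if_true, if_false, Bool.false_eq_true, h]
    abel
  · simp only [stk, hi, if_false]
    abel

/-- families vanishing in direction `1` whose classes are filled are closed under sums -/
lemma fill_sum {ι : Type*} (s : Finset ι) (q : ι → Fin (m + 3) → Bool → PiA m Y y0)
    (hq : ∀ i ∈ s, Fill (q i)) (h0 : ∀ i ∈ s, ∀ b, q i 1 b = 0) :
    Fill (∑ i ∈ s, q i) ∧ ∀ b, (∑ i ∈ s, q i) 1 b = 0 := by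
  classical
  induction s using Finset.induction_on with
  | empty => simpa using fill_zero
  | insert i s hi ih =>
    obtain ⟨ih1, ih2⟩ := ih (fun j hj => hq j (Finset.mem_insert_of_mem hj))
      (fun j hj => h0 j (Finset.mem_insert_of_mem hj))
    rw [Finset.sum_insert hi]
    constructor
    · exact (hq i (Finset.mem_insert_self _ _)).add ih1 1
        (h0 i (Finset.mem_insert_self _ _) true) (ih2 false)
    · intro b
      rw [Pi.add_apply, Pi.add_apply, ih2 b, h0 i (Finset.mem_insert_self _ _) b, add_zero]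

/-- the completed single entries -/
def qq {A : Type*} [AddCommGroup A] (a : Fin (m + 3) → Bool → A) (p : Fin (m + 3) × Bool) :
    Fin (m + 3) → Bool → A :=
  if p.2 then sg p.1 true (a p.1 true) + sg 0 false ((-1 : ℤ) ^ (p.1 : ℕ) • a p.1 true)
  else if p.1 = 0 then 0 else
    sg p.1 false (a p.1 false) + sg 0 false ((-1 : ℤ) ^ ((p.1 : ℕ) + 1) • a p.1 false)

lemma fill_qq (a : Fin (m + 3) → Bool → PiA m Y y0) (p : Fin (m + 3) × Bool) :
    Fill (qq a p) := by
  unfold qq
  split_ifs with h1 h2
  · exact fill_Q1 _ _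
  · exact fill_zero
  · exact fill_Q0' h2 _

lemma qq_apply_of_ne {A : Type*} [AddCommGroup A] (a : Fin (m + 3) → Bool → A)
    (p : Fin (m + 3) × Bool) (hp : p.1 ≠ 1) (b : Bool) : qq a p 1 b = 0 := by
  have h10 : (1 : Fin (m + 3)) ≠ 0 := by simp
  unfold qq
  split_ifs with h1 h2
  · rw [Pi.add_apply, Pi.add_apply, sg_apply_ne (Ne.symm hp), sg_apply_ne h10, add_zero]
  · rfl
  · rw [Pi.add_apply, Pi.add_apply, sg_apply_ne (Ne.symm hp), sg_apply_ne h10, add_zero]

lemma alt_qq {A : Type*} [AddCommGroup A] (a : Fin (m + 3) → Bool → A)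
    (p : Fin (m + 3) × Bool) : alt (qq a p) = 0 := by
  unfold qq
  split_ifs with h1 h2
  · rw [alt_add, alt_sg_true, alt_sg_false]; simp
  · simp [alt]
  · rw [alt_add, alt_sg_false, alt_sg_false, pow_succ]; simp

lemma qq_apply_off {A : Type*} [AddCommGroup A] (a : Fin (m + 3) → Bool → A)
    (i : Fin (m + 3)) (b : Bool) (h : ¬ (i = 0 ∧ b = false)) (p : Fin (m + 3) × Bool) :
    qq a p i b = if p = (i, b) then a i b else 0 := by
  have h0 : ∀ x : A, sg (0 : Fin (m + 3)) false x i b = 0 := by
    intro x; simp only [sg]; rw [if_neg h]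
  obtain ⟨j, c⟩ := p
  unfold qq
  cases c
  · simp only [Bool.false_eq_true, if_false]
    by_cases hj : j = 0
    · subst hj
      rw [if_pos rfl, if_neg]
      · rfl
      · intro h1
        rw [Prod.mk.injEq] at h1
        exact h ⟨h1.1.symm, h1.2.symm⟩
    · rw [if_neg hj, Pi.add_apply, Pi.add_apply, h0, add_zero]
      simp only [sg, Prod.mk.injEq]
      by_cases h1 : i = j ∧ b = false
      · rw [if_pos h1, if_pos ⟨h1.1.symm, h1.2.symm⟩, h1.1, h1.2]
      · rw [if_neg h1, if_neg (fun h2 => h1 ⟨h2.1.symm, h2.2.symm⟩)]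
  · simp only [if_true]
    rw [Pi.add_apply, Pi.add_apply, h0, add_zero]
    simp only [sg, Prod.mk.injEq]
    by_cases h1 : i = j ∧ b = true
    · rw [if_pos h1, if_pos ⟨h1.1.symm, h1.2.symm⟩, h1.1, h1.2]
    · rw [if_neg h1, if_neg (fun h2 => h1 ⟨h2.1.symm, h2.2.symm⟩)]

lemma sum_qq_off {A : Type*} [AddCommGroup A] (a : Fin (m + 3) → Bool → A)
    (i : Fin (m + 3)) (b : Bool) (h : ¬ (i = 0 ∧ b = false)) :
    (∑ p, qq a p) i b = a i b := by
  rw [Finset.sum_apply, Finset.sum_apply]
  simp only [qq_apply_off a i b h]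
  rw [Finset.sum_ite_eq' Finset.univ (i, b)]
  simp

lemma eq_of_alt {A : Type*} [AddCommGroup A] {a c : Fin (m + 3) → Bool → A}
    (h : ∀ i b, ¬ (i = 0 ∧ b = false) → a i b = c i b) (h2 : alt a = alt c) : a = c := by
  have h3 : a = c + sg 0 false (a 0 false - c 0 false) := by
    funext i b
    rw [Pi.add_apply, Pi.add_apply]
    by_cases hib : i = 0 ∧ b = false
    · rw [hib.1, hib.2]; simp [sg]
    · rw [h i b hib]; simp only [sg]; rw [if_neg hib, add_zero]
  have h4 : alt a = alt c + (a 0 false - c 0 false) := by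
    conv_lhs => rw [h3]
    rw [alt_add, alt_sg_false]; simp
  have h5 : a 0 false - c 0 false = 0 := by
    rw [h2] at h4
    simpa using h4
  rw [h3, h5, sg_zero, add_zero]

lemma alt_sum_qq {A : Type*} [AddCommGroup A] (a : Fin (m + 3) → Bool → A) :
    alt (∑ p, qq a p) = 0 := by
  have : ∀ s : Finset (Fin (m + 3) × Bool), alt (∑ p ∈ s, qq a p) = 0 := by
    intro s
    induction s using Finset.induction_on with
    | empty => simp [alt]
    | insert i s hi ih => rw [Finset.sum_insert hi, alt_add, ih, alt_qq, add_zero]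
  exact this _

lemma sum_qq {A : Type*} [AddCommGroup A] {a : Fin (m + 3) → Bool → A} (h : alt a = 0) :
    ∑ p, qq a p = a :=
  eq_of_alt (fun i b hib => sum_qq_off a i b hib) (by rw [alt_sum_qq, h])

theorem fill_of_alt {a : Fin (m + 3) → Bool → PiA m Y y0} (h : alt a = 0) : Fill a := by
  classical
  rw [← sum_qq h, ← Finset.sum_filter_add_sum_filter_not Finset.univ
    (fun p : Fin (m + 3) × Bool => p.1 = 1)]
  obtain ⟨h1, h2⟩ := fill_sum (Finset.univ.filter (fun p : Fin (m + 3) × Bool => ¬ p.1 = 1))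
    (qq a) (fun p _ => fill_qq a p) (fun p hp b => qq_apply_of_ne a p
      (Finset.mem_filter.1 hp).2 b)
  have h3 : Finset.univ.filter (fun p : Fin (m + 3) × Bool => p.1 = 1) =
      {((1 : Fin (m + 3)), false), ((1 : Fin (m + 3)), true)} := by
    ext ⟨i, b⟩
    cases b <;> simp
  have h10 : (1 : Fin (m + 3)) ≠ 0 := by simp
  have h1b : ∀ b, ¬ ((1 : Fin (m + 3)) = 0 ∧ b = false) := fun b hb => h10 hb.1
  rw [h3, Finset.sum_pair (by simp)]
  have h4 := (fill_qq a (1, false)).add h1 1
    (by rw [qq_apply_off a 1 true (h1b _)]; simp) (h2 false)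
  have h5 := h4.add (fill_qq a (1, true)) 1
    (by rw [Pi.add_apply, Pi.add_apply, h2, qq_apply_off a 1 true (h1b _)]; simp)
    (by rw [qq_apply_off a 1 false (h1b _)]; simp)
  convert h5 using 1
  abel

lemma fill_single {z : PiA m Y y0} (h : Fill (sg 0 false z)) : z = 0 := by
  obtain ⟨u, hu⟩ := cls_surj z
  let f : Fin (m + 3) → Bool → Ω^ (Fin (m + 2)) Y y0 := fun i b =>
    if i = 0 ∧ b = false then u else GenLoop.const
  obtain ⟨F, hF⟩ := h.fillable (f := f) (by
    intro i b
    simp only [f, sg]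
    split_ifs
    · exact hu
    · exact cls_const)
  rw [← hu, ← cls_const, cls_eq_iff, homotopic_iff]
  refine ⟨⟨fun p => F (Fin.cons p.1 p.2), ?_⟩, ?_, ?_, ?_⟩
  · refine F.continuous.comp ?_
    refine continuous_pi fun i => ?_
    refine Fin.cases ?_ (fun j => ?_) i
    · simpa using continuous_fst
    · simp only [Fin.cons_succ]; fun_prop
  · intro x
    have := hF 0 false x
    simp only [f, and_self, if_true] at this
    rw [← this]
    simp only [ContinuousMap.coe_mk, fc, Fin.insertNth_zero']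
    rfl
  · intro x
    have := hF 0 true x
    simp only [f] at this
    rw [if_neg (by simp)] at this
    rw [← this]
    simp only [ContinuousMap.coe_mk, fc, Fin.insertNth_zero']
    rfl
  · intro t x hx
    obtain ⟨j, b, hj⟩ := mem_bd_iff.1 hx
    simp only [ContinuousMap.coe_mk]
    have h1 : (Fin.cons t x : Fin (m + 3) → I) (Fin.succ j) = ep b := by simpa using hj
    rw [← fc_rem h1, hF]
    simp only [f]
    rw [if_neg (by simp)]
    rfl

theorem alt_of_fill {a : Fin (m + 3) → Bool → PiA m Y y0} (h : Fill a) : alt a = 0 := by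
  have h10 : (1 : Fin (m + 3)) ≠ 0 := by simp
  have h1b : ∀ b, ¬ ((1 : Fin (m + 3)) = 0 ∧ b = false) := fun b hb => h10 hb.1
  -- kill the faces in direction one
  have e1 : (sg 1 true (a 1 false) + sg 0 false ((-1 : ℤ) ^ ((1 : Fin (m + 3)) : ℕ) • a 1 false) :
      Fin (m + 3) → Bool → PiA m Y y0) 1 true = a 1 false := by
    rw [Pi.add_apply, Pi.add_apply, sg_apply_ne h10, add_zero]; simp [sg]
  have hb := (fill_Q1 (1 : Fin (m + 3)) (a 1 false)).stack h 1 e1
  have altb := alt_stk 1 _ _ e1
  rw [alt_add, alt_sg_true, alt_sg_false] at altb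
  set b := stk 1 (sg 1 true (a 1 false) +
    sg 0 false ((-1 : ℤ) ^ ((1 : Fin (m + 3)) : ℕ) • a 1 false)) a with hbdef
  have hb1 : b 1 false = 0 := by
    rw [hbdef]
    simp only [stk, if_true, Bool.false_eq_true, if_false]
    rw [Pi.add_apply, Pi.add_apply, sg_apply_ne h10, add_zero]
    simp [sg]
  have altb' : alt b = alt a := by
    rw [altb]; simp
  have e2 : b 1 true = (sg 1 false (b 1 true) +
      sg 0 false ((-1 : ℤ) ^ (((1 : Fin (m + 3)) : ℕ) + 1) • b 1 true) :
      Fin (m + 3) → Bool → PiA m Y y0) 1 false := by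
    rw [Pi.add_apply, Pi.add_apply, sg_apply_ne h10, add_zero]; simp [sg]
  have hc := hb.stack (fill_Q0' h10 (b 1 true)) 1 e2
  have altc := alt_stk 1 _ _ e2
  rw [alt_add, alt_sg_false, alt_sg_false] at altc
  set c := stk 1 b (sg 1 false (b 1 true) +
      sg 0 false ((-1 : ℤ) ^ (((1 : Fin (m + 3)) : ℕ) + 1) • b 1 true)) with hcdef
  have hc1 : c 1 false = 0 := by
    rw [hcdef]
    simp only [stk, if_true, Bool.false_eq_true, if_false]
    exact hb1
  have hc2 : c 1 true = 0 := by
    rw [hcdef]
    simp only [stk, if_true]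
    rw [Pi.add_apply, Pi.add_apply, sg_apply_ne h10, add_zero]
    simp [sg]
  have altc' : alt c = alt a := by
    rw [altc, altb', pow_succ]; simp
  -- the complement
  let d : Fin (m + 3) → Bool → PiA m Y y0 := -c + sg 0 false (alt c)
  have hd : alt d = 0 := by
    have hneg : alt (-c) = - alt c := by
      have := alt_add (-c) c
      rw [neg_add_cancel] at this
      have h0 : alt (0 : Fin (m + 3) → Bool → PiA m Y y0) = 0 := by simp [alt]
      rw [h0] at this
      exact eq_neg_of_add_eq_zero_left this.symm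
    simp only [d]
    rw [alt_add, alt_sg_false, hneg]; simp
  have hfd := fill_of_alt hd
  have hd1 : d 1 false = 0 := by
    simp only [d]
    rw [Pi.add_apply, Pi.add_apply, sg_apply_ne h10, add_zero, Pi.neg_apply, Pi.neg_apply, hc1,
      neg_zero]
  have hs := hc.add hfd 1 hc2 hd1
  have : c + d = sg 0 false (alt c) := by simp only [d]; abel
  rw [this] at hs
  rw [← altc']
  exact fill_single hs

/-- **Homotopy addition theorem** for cubes. -/
theorem hat (f : Fin (m + 3) → Bool → Ω^ (Fin (m + 2)) Y y0) :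
    Fillable f ↔ alt (fun i b => cls (f i b)) = 0 :=
  ⟨fun h => alt_of_fill ⟨f, h, fun _ _ => rfl⟩,
    fun h => (fill_of_alt h).fillable fun _ _ => rfl⟩

end Pool.Agent.Work.MP_d1e9a6_pr.Top
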