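import Pool.Agent.Work.MP_d1e9a6_pr_h36.Cells
import Pool.Agent.Work.MP_d1e9a6_pr_h36.Hat

/-!
The main deformation lemma: two maps on a skeleton whose difference cochain is a coboundary are
homotopic.
-/

open scoped unitInterval Topology Topology.Homotopy
open Set

noncomputable section

namespace Pool.Agent.Work.MP_d1e9a6_pr.Top

/-- homotopy of functions on a subset -/
def HtpyOn {X Y : Type*} [TopologicalSpace X] [TopologicalSpace Y] (D : Set X) (f g : X → Y) :
    Prop :=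
  ∃ G : X × I → Y, ContinuousOn G (D ×ˢ univ) ∧ ∀ x ∈ D, G (x, 0) = f x ∧ G (x, 1) = g x

lemma HtpyOn.trans {X Y : Type*} [TopologicalSpace X] [TopologicalSpace Y] {D : Set X}
    {f g h : X → Y} (h1 : HtpyOn D f g) (h2 : HtpyOn D g h) : HtpyOn D f h := by
  obtain ⟨G, hG, hG'⟩ := h1
  obtain ⟨H, hH, hH'⟩ := h2
  refine ⟨fun p => if (p.2 : ℝ) ≤ 1 / 2 then G (p.1, projIcc 0 1 zero_le_one (2 * p.2))
    else H (p.1, projIcc 0 1 zero_le_one (2 * p.2 - 1)), ?_, ?_⟩
  · rw [continuousOn_iff_continuous_domRestrict]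
    have hc1 : Continuous fun q : ↥(D ×ˢ (univ : Set I)) =>
        G (q.1.1, projIcc 0 1 zero_le_one (2 * (q.1.2 : ℝ))) := by
      refine hG.comp_continuous ?_ (fun q => ⟨q.2.1, mem_univ _⟩)
      refine Continuous.prodMk (by fun_prop) (continuous_projIcc.comp (by fun_prop))
    have hc2 : Continuous fun q : ↥(D ×ˢ (univ : Set I)) =>
        H (q.1.1, projIcc 0 1 zero_le_one (2 * (q.1.2 : ℝ) - 1)) := by
      refine hH.comp_continuous ?_ (fun q => ⟨q.2.1, mem_univ _⟩)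
      refine Continuous.prodMk (by fun_prop) (continuous_projIcc.comp (by fun_prop))
    refine Continuous.if_le hc1 hc2 (by fun_prop) continuous_const ?_
    intro q hq
    rw [hq]
    have e1 : projIcc (0 : ℝ) 1 zero_le_one (2 * (1 / 2)) = 1 := by norm_num
    have e2 : projIcc (0 : ℝ) 1 zero_le_one (2 * (1 / 2) - 1) = 0 := by norm_num
    rw [e1, e2, (hG' _ q.2.1).2, (hH' _ q.2.1).1]
  · intro x hx
    constructor
    · have h0 : ((0 : I) : ℝ) ≤ 1 / 2 := by norm_num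
      simp only [h0, if_true]
      have : projIcc (0 : ℝ) 1 zero_le_one (2 * ((0 : I) : ℝ)) = 0 := by simp
      rw [this]; exact (hG' x hx).1
    · have h0 : ¬ ((1 : I) : ℝ) ≤ 1 / 2 := by norm_num
      simp only [h0, if_false]
      have : projIcc (0 : ℝ) 1 zero_le_one (2 * ((1 : I) : ℝ) - 1) = 1 := by norm_num
      rw [this]; exact (hH' x hx).2

variable {n : ℕ} {K : Set (Finset (Fin n))} {Y : Type*} [TopologicalSpace Y] {y0 : Y}

lemma fc_succ_cons {j : ℕ} (i : Fin (j + 1)) (b : Bool) (t : I) (w : Fin j → I) :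
    fc i.succ b (Fin.cons t w : Fin (j + 1) → I) = Fin.cons t (fc i b w) := by
  unfold fc
  exact Fin.insertNth_succ_cons i (ep b) t w

lemma fc_zero_eq {j : ℕ} (b : Bool) (w : Fin j → I) :
    fc 0 b w = Fin.cons (ep b) w := by
  unfold fc
  exact Fin.insertNth_zero' (ep b) w

lemma continuous_cons_I {j : ℕ} :
    Continuous fun p : (Fin j → I) × I => (Fin.cons p.2 p.1 : Fin (j + 1) → I) := by
  refine continuous_pi fun i => ?_
  refine Fin.cases ?_ (fun l => ?_) i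
  · simpa using continuous_snd
  · simp only [Fin.cons_succ]; fun_prop

lemma cons_mem_bd_of_mem {j : ℕ} {x : Fin j → I} (hx : x ∈ Cube.boundary (Fin j)) (t : I) :
    (Fin.cons t x : Fin (j + 1) → I) ∈ Cube.boundary (Fin (j + 1)) := by
  obtain ⟨i, b, hi⟩ := mem_bd_iff.1 hx
  exact mem_bd_iff.2 ⟨i.succ, b, by simpa using hi⟩

/-- the family of faces of the prism over a simplex -/
def prismFam (hK : IsCpx K) {m : ℕ} (τ : Simp K (m + 2)) (a0 a1 : Ω^ (Fin (m + 2)) Y y0)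
    (v : Simp K (m + 1) → Ω^ (Fin (m + 2)) Y y0) :
    Fin (m + 3) → Bool → Ω^ (Fin (m + 2)) Y y0 :=
  Fin.cases (fun b => if b then a1 else a0)
    (fun i b => if b then v (τ.face hK i.castSucc)
      else if i = Fin.last (m + 1) then v (τ.face hK (Fin.last (m + 2))) else GenLoop.const)

lemma prismFam_succ (hK : IsCpx K) {m : ℕ} (τ : Simp K (m + 2)) (a0 a1 : Ω^ (Fin (m + 2)) Y y0)
    (v : Simp K (m + 1) → Ω^ (Fin (m + 2)) Y y0) (i : Fin (m + 2)) (b : Bool) :
    prismFam hK τ a0 a1 v i.succ b = if b then v (τ.face hK i.castSucc)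
      else if i = Fin.last (m + 1) then v (τ.face hK (Fin.last (m + 2))) else GenLoop.const :=
  rfl

lemma alt_prismFam (hK : IsCpx K) {m : ℕ} (τ : Simp K (m + 2)) (a0 a1 : Ω^ (Fin (m + 2)) Y y0)
    (v : Simp K (m + 1) → Ω^ (Fin (m + 2)) Y y0) :
    alt (fun i b => cls (prismFam hK τ a0 a1 v i b)) =
      cls a0 - cls a1 + ∑ i : Fin (m + 3), ((-1 : ℤ) ^ (i : ℕ)) • cls (v (τ.face hK i)) := by
  unfold alt
  rw [Fin.sum_univ_succ, Fin.sum_univ_castSucc (n := m + 2)]
  have h0 : ((-1 : ℤ) ^ ((0 : Fin (m + 3)) : ℕ)) • (cls (prismFam hK τ a0 a1 v 0 false) -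
      cls (prismFam hK τ a0 a1 v 0 true)) = cls a0 - cls a1 := by
    simp [prismFam]
  rw [h0]
  congr 1
  have h1 : ∀ i : Fin (m + 2), ((-1 : ℤ) ^ ((i.succ : Fin (m + 3)) : ℕ)) •
      (cls (prismFam hK τ a0 a1 v i.succ false) - cls (prismFam hK τ a0 a1 v i.succ true)) =
      ((-1 : ℤ) ^ ((i.castSucc : Fin (m + 3)) : ℕ)) • cls (v (τ.face hK i.castSucc)) +
        (if i = Fin.last (m + 1) then
          ((-1 : ℤ) ^ ((Fin.last (m + 2) : Fin (m + 3)) : ℕ)) •
            cls (v (τ.face hK (Fin.last (m + 2)))) else 0) := by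
    intro i
    simp only [prismFam, Fin.cases_succ, if_true, Bool.false_eq_true, if_false]
    split_ifs with hi
    · subst hi
      simp only [Fin.val_succ, Fin.val_last, Fin.val_castSucc]
      rw [pow_succ (-1 : ℤ) (m + 1), smul_sub]
      simp only [mul_neg, mul_one, neg_smul]
      abel
    · rw [cls_const]
      simp only [Fin.val_succ, Fin.val_castSucc]
      rw [pow_succ (-1 : ℤ) (i : ℕ)]
      simp
  rw [Finset.sum_congr rfl (fun i _ => h1 i), Finset.sum_add_distrib, Finset.sum_ite_eq']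
  simp

/-- **Lemma M.** -/
theorem lemM (hK : IsCpx K) (m : ℕ) {g0 g1 : real K → Y}
    (u0 u1 : Simp K (m + 2) → Ω^ (Fin (m + 2)) Y y0) (v : Simp K (m + 1) → Ω^ (Fin (m + 2)) Y y0)
    (hg0 : ∀ y ∈ sk K (m + 2), g0 y = y0) (hg1 : ∀ y ∈ sk K (m + 2), g1 y = y0)
    (hu0 : ∀ τ x, g0 (cell hK τ x) = u0 τ x) (hu1 : ∀ τ x, g1 (cell hK τ x) = u1 τ x)
    (hv : ∀ τ, cls (u1 τ) - cls (u0 τ) =
      ∑ i : Fin (m + 3), ((-1 : ℤ) ^ (i : ℕ)) • cls (v (τ.face hK i))) :
    ∃ G : real K × I → Y, ContinuousOn G (sk K (m + 3) ×ˢ univ) ∧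
      (∀ y ∈ sk K (m + 3), G (y, 0) = g0 y ∧ G (y, 1) = g1 y) ∧
      (∀ y ∈ sk K (m + 1), ∀ t, G (y, t) = y0) ∧
      ∀ (ρ : Simp K (m + 1)) x t, G (cell hK ρ x, t) = v ρ (Fin.cons t x) := by
  -- first layer
  obtain ⟨G1, h1, h2, h3⟩ := (cellStr hK (m + 1)).glue (S := I) (G := fun _ => y0)
    continuousOn_const (fun ρ => ⟨fun p => v ρ (Fin.cons p.2 p.1),
      (v ρ).1.continuous.comp continuous_cons_I⟩)
    (fun ρ x s hx => (v ρ).2 _ (cons_mem_bd_of_mem hx s))
  simp only [ContinuousMap.coe_mk] at h3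
  have h01 : ∀ b, ∀ y ∈ sk K (m + 2), G1 (y, ep b) = y0 := by
    intro b y hy
    rcases (cellStr hK (m + 1)).cover y hy with h4 | ⟨ρ, x, rfl⟩
    · rw [h2 y h4]
    · rw [h3, ← fc_zero_eq]
      exact (v ρ).2 _ (fc_mem_bd _ _ _)
  -- fill the prisms
  have hfill : ∀ τ : Simp K (m + 2), Fillable (prismFam hK τ (u0 τ) (u1 τ) v) := by
    intro τ
    rw [hat, alt_prismFam, ← hv τ]
    abel
  choose F hF using hfill
  have hFbd : ∀ (τ : Simp K (m + 2)) (x : Fin (m + 2) → I) (s : I),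
      x ∈ Cube.boundary (Fin (m + 2)) → F τ (Fin.cons s x) = G1 (cell hK τ x, s) := by
    intro τ x s hx
    obtain ⟨i, b, hi⟩ := mem_bd_iff.1 hx
    rw [← fc_rem hi, ← fc_succ_cons, hF]
    generalize rem i x = w
    cases b
    · by_cases hl : i = Fin.last (m + 1)
      · subst hl
        rw [cell_face_last, h3, prismFam_succ, if_neg (by simp), if_pos rfl]
      · rw [h2 _ (cell_face_false hK τ i hl w), prismFam_succ, if_neg (by simp), if_neg hl]
        rfl
    · rw [cell_face_true, h3, prismFam_succ, if_pos rfl]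
  obtain ⟨G2, h4, h5, h6⟩ := (cellStr hK (m + 2)).glue (S := I) (G := G1) h1
    (fun τ => ⟨fun p => F τ (Fin.cons p.2 p.1), (F τ).continuous.comp continuous_cons_I⟩)
    (fun τ x s hx => hFbd τ x s hx)
  simp only [ContinuousMap.coe_mk] at h6
  refine ⟨G2, h4, ?_, ?_, ?_⟩
  · intro y hy
    rcases (cellStr hK (m + 2)).cover y hy with h7 | ⟨τ, x, rfl⟩
    · rw [h5 y h7, h5 y h7, hg0 y h7, hg1 y h7]
      exact ⟨h01 false y h7, h01 true y h7⟩
    · rw [h6, h6, hu0, hu1]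
      constructor
      · have := hF τ 0 false x
        rw [fc_zero_eq, ep_false] at this
        rw [this]; rfl
      · have := hF τ 0 true x
        rw [fc_zero_eq, ep_true] at this
        rw [this]; rfl
  · intro y hy t
    rw [h5 y (sk_mono (Nat.le_succ _) hy), h2 y hy]
  · intro ρ x t
    rw [h5 _ ((cellStr hK (m + 1)).mem ρ x), h3]

end Pool.Agent.Work.MP_d1e9a6_pr.Top
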