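import Pool.Agent.Work.MP_d1e9a6_pr_h36.LemM

/-!
Functoriality of the higher homotopy groups and the cocycle attached to a map which is constant
on a skeleton.
-/

open scoped unitInterval Topology Topology.Homotopy
open Set

noncomputable section

namespace Pool.Agent.Work.MP_d1e9a6_pr.Top

variable {Y Z : Type*} [TopologicalSpace Y] [TopologicalSpace Z] {y0 : Y} {z0 : Z}

/-- push a loop forward -/
def push {j : ℕ} (f : C(Y, Z)) (h : f y0 = z0) (u : Ω^ (Fin j) Y y0) : Ω^ (Fin j) Z z0 :=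
  ⟨f.comp u.1, fun x hx => by
    change f (u x) = z0
    rw [show u x = y0 from u.2 x hx, h]⟩

@[simp] lemma push_apply {j : ℕ} (f : C(Y, Z)) (h : f y0 = z0) (u : Ω^ (Fin j) Y y0)
    (x : Fin j → I) : push f h u x = f (u x) := rfl

lemma push_homotopic {j : ℕ} (f : C(Y, Z)) (h : f y0 = z0) {u v : Ω^ (Fin j) Y y0}
    (huv : GenLoop.Homotopic u v) : GenLoop.Homotopic (push f h u) (push f h v) := by
  rw [homotopic_iff] at huv ⊢
  obtain ⟨H, h0, h1, hb⟩ := huv
  refine ⟨f.comp H, ?_, ?_, ?_⟩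
  · intro x; simp [h0]
  · intro x; simp [h1]
  · intro t x hx; simp [hb t x hx, h]

lemma push_transAt {j : ℕ} (f : C(Y, Z)) (h : f y0 = z0) (i : Fin j) (u v : Ω^ (Fin j) Y y0) :
    push f h (GenLoop.transAt i u v) = GenLoop.transAt i (push f h u) (push f h v) := by
  ext t
  rw [push_apply]
  simp only [GenLoop.transAt, GenLoop.coe_copy]
  split_ifs <;> rfl

variable {m : ℕ}

/-- the induced homomorphism -/
def piMap (f : C(Y, Z)) (h : f y0 = z0) : PiA m Y y0 →+ PiA m Z z0 :=
  AddMonoidHom.mk' (fun a => Additive.ofMul (Quotient.map (push f h)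
    (fun _ _ hab => push_homotopic f h hab) (Additive.toMul a))) (by
    intro a b
    obtain ⟨u, rfl⟩ := cls_surj a
    obtain ⟨v, rfl⟩ := cls_surj b
    rw [← cls_transAt 0 u v]
    change cls (push f h _) = cls (push f h u) + cls (push f h v)
    rw [push_transAt, cls_transAt])

lemma piMap_cls (f : C(Y, Z)) (h : f y0 = z0) (u : Ω^ (Fin (m + 2)) Y y0) :
    piMap f h (cls u) = cls (push f h u) := rfl

variable {n : ℕ} {K : Set (Finset (Fin n))}

/-- loops attached to a map constant on a skeleton -/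
lemma exists_loops (hK : IsCpx K) (j : ℕ) {g : real K → Y}
    (hg : ContinuousOn g (sk K (j + 1))) (h0 : ∀ y ∈ sk K j, g y = y0) :
    ∃ u : Simp K j → Ω^ (Fin j) Y y0, ∀ τ x, g (cell hK τ x) = u τ x := by
  refine ⟨fun τ => ⟨⟨fun x => g (cell hK τ x), ?_⟩, ?_⟩, fun τ x => rfl⟩
  · exact hg.comp_continuous (cell hK τ).continuous (fun x => (cellStr hK j).mem τ x)
  · intro x hx
    exact h0 _ ((cellStr hK j).bd τ x hx)

/-- the faces of a simplex on which the map is constant on the skeleton of codimension two -/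
def bdFam (hK : IsCpx K) {m : ℕ} (ρ : Simp K (m + 3)) (u : Simp K (m + 2) → Ω^ (Fin (m + 2)) Y y0) :
    Fin (m + 3) → Bool → Ω^ (Fin (m + 2)) Y y0 :=
  fun i b => if b then u (ρ.face hK i.castSucc)
      else if i = Fin.last (m + 2) then u (ρ.face hK (Fin.last (m + 3))) else GenLoop.const

lemma alt_bdFam (hK : IsCpx K) {m : ℕ} (ρ : Simp K (m + 3))
    (u : Simp K (m + 2) → Ω^ (Fin (m + 2)) Y y0) :
    alt (fun i b => cls (bdFam hK ρ u i b)) =
      - ∑ i : Fin (m + 4), ((-1 : ℤ) ^ (i : ℕ)) • cls (u (ρ.face hK i)) := by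
  unfold alt
  rw [Fin.sum_univ_castSucc (n := m + 3)]
  have h1 : ∀ i : Fin (m + 3), ((-1 : ℤ) ^ (i : ℕ)) •
      (cls (bdFam hK ρ u i false) - cls (bdFam hK ρ u i true)) =
      - (((-1 : ℤ) ^ ((i.castSucc : Fin (m + 4)) : ℕ)) • cls (u (ρ.face hK i.castSucc))) -
        (if i = Fin.last (m + 2) then
          ((-1 : ℤ) ^ ((Fin.last (m + 3) : Fin (m + 4)) : ℕ)) •
            cls (u (ρ.face hK (Fin.last (m + 3)))) else 0) := by
    intro i
    simp only [bdFam, if_true, Bool.false_eq_true, if_false]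
    split_ifs with hi
    · subst hi
      simp only [Fin.val_last, Fin.val_castSucc]
      rw [pow_succ (-1 : ℤ) (m + 2), smul_sub]
      simp only [mul_neg, mul_one, neg_smul]
      abel
    · rw [cls_const]
      simp only [Fin.val_castSucc]
      simp
  rw [Finset.sum_congr rfl (fun i _ => h1 i), Finset.sum_sub_distrib, Finset.sum_ite_eq']
  simp only [Finset.mem_univ, if_true, Finset.sum_neg_distrib]
  abel

/-- the obstruction cochain of a map is a cocycle -/
theorem cocycle (hK : IsCpx K) (m : ℕ) {g : real K → Y}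
    (hg : ContinuousOn g (sk K (m + 4))) (h0 : ∀ y ∈ sk K (m + 2), g y = y0)
    {u : Simp K (m + 2) → Ω^ (Fin (m + 2)) Y y0} (hu : ∀ τ x, g (cell hK τ x) = u τ x)
    (ρ : Simp K (m + 3)) :
    ∑ i : Fin (m + 4), ((-1 : ℤ) ^ (i : ℕ)) • cls (u (ρ.face hK i)) = 0 := by
  have hf : Fillable (bdFam hK ρ u) := by
    refine ⟨⟨fun x => g (cell hK ρ x), hg.comp_continuous (cell hK ρ).continuous
      (fun x => (cellStr hK (m + 3)).mem ρ x)⟩, ?_⟩
    intro i b w
    simp only [ContinuousMap.coe_mk]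
    cases b
    · by_cases hl : i = Fin.last (m + 2)
      · subst hl
        rw [cell_face_last, hu]
        simp [bdFam]
      · rw [h0 _ (cell_face_false hK ρ i hl w)]
        simp only [bdFam, Bool.false_eq_true, if_false]
        rw [if_neg hl]
        rfl
    · rw [cell_face_true, hu]
      simp [bdFam]
  have h1 := (hat _).1 hf
  rw [alt_bdFam] at h1
  exact neg_eq_zero.1 h1

/-- a prism filled by a homotopy -/
theorem prism_fillable (hK : IsCpx K) (m : ℕ) {P : real K × I → Y}
    (hP : ContinuousOn P (sk K (m + 3) ×ˢ univ)) (τ : Simp K (m + 2))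
    {a0 a1 : Ω^ (Fin (m + 2)) Y y0} {v : Simp K (m + 1) → Ω^ (Fin (m + 2)) Y y0}
    (h0 : ∀ x, P (cell hK τ x, 0) = a0 x) (h1 : ∀ x, P (cell hK τ x, 1) = a1 x)
    (hv : ∀ (ρ : Simp K (m + 1)) x t, P (cell hK ρ x, t) = v ρ (Fin.cons t x))
    (hs : ∀ y ∈ sk K (m + 1), ∀ t, P (y, t) = y0) :
    Fillable (prismFam hK τ a0 a1 v) := by
  refine ⟨⟨fun z => P (cell hK τ (fun l => z l.succ), z 0), ?_⟩, ?_⟩
  · refine hP.comp_continuous ?_ (fun z => ⟨(cellStr hK (m + 2)).mem τ _, mem_univ _⟩)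
    refine Continuous.prodMk ((cell hK τ).continuous.comp ?_) (continuous_apply 0)
    exact continuous_pi fun l => continuous_apply _
  · intro i b w
    simp only [ContinuousMap.coe_mk]
    refine Fin.cases ?_ (fun i => ?_) i
    · rw [fc_same]
      have : (fun l : Fin (m + 2) => fc 0 b w l.succ) = w := fc_zero_tail b w
      rw [this]
      cases b
      · exact h0 w
      · exact h1 w
    · have e1 : (fun l : Fin (m + 2) => fc i.succ b w l.succ) = fc i b (fun l => w l.succ) :=
        fc_succ_tail i b w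
      rw [e1, fc_succ_zero, prismFam_succ]
      cases b
      · by_cases hl : i = Fin.last (m + 1)
        · subst hl
          rw [cell_face_last, hv, if_neg (by simp), if_pos rfl]
          congr 1
          exact Fin.cons_self_tail w
        · rw [hs _ (cell_face_false hK τ i hl _), if_neg (by simp), if_neg hl]
          rfl
      · rw [cell_face_true, hv, if_pos rfl]
        congr 1
        exact Fin.cons_self_tail w

/-- one inductive step of the null-homotopy of skeleta -/
theorem T1step (hK : IsCpx K) (m : ℕ) (hCoh : Coh hK (m + 1)) {Y : Type} [TopologicalSpace Y]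
    {y0 : Y} {g : real K → Y} {c' : ℕ} (hc : m + 4 ≤ c') (hg : ContinuousOn g (sk K c'))
    (h0 : ∀ y ∈ sk K (m + 2), g y = y0) :
    ∃ g' : real K → Y, HtpyOn (sk K c') g g' ∧ ContinuousOn g' (sk K c') ∧
      ∀ y ∈ sk K (m + 3), g' y = y0 := by
  obtain ⟨u, hu⟩ := exists_loops hK (m + 2) (hg.mono (sk_mono (by omega))) h0
  obtain ⟨c, hc1⟩ := hCoh (PiA m Y y0) (fun τ => - cls (u τ)) (by
    intro ρ
    have := cocycle hK m (hg.mono (sk_mono hc)) h0 hu ρ
    simp only [smul_neg, Finset.sum_neg_distrib]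
    rw [neg_eq_zero]
    exact this)
  choose v hv using fun ρ => cls_surj (c ρ)
  obtain ⟨G, h1, h2, h3, h4⟩ := lemM hK m (g0 := g) (g1 := fun _ => y0) u
    (fun _ => GenLoop.const) v h0 (fun _ _ => rfl) hu (fun _ _ => rfl) (by
      intro τ
      rw [cls_const, zero_sub, hc1 τ]
      simp only [hv])
  obtain ⟨G', h5, h6, h7⟩ := sk_hep hK (by omega : m + 3 ≤ c') h1 hg
    (fun y hy => (h2 y hy).1)
  refine ⟨fun y => G' (y, 1), ⟨G', h5, fun y hy => ⟨h7 y hy, rfl⟩⟩, ?_, ?_⟩
  · exact h5.comp (by fun_prop) (fun y hy => ⟨hy, mem_univ _⟩)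
  · intro y hy
    change G' (y, 1) = y0
    rw [h6 y hy]
    exact (h2 y hy).2

end Pool.Agent.Work.MP_d1e9a6_pr.Top
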