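import Pool.Agent.Work.MP_d1e9a6_pr_h36.Push

/-!
Null-homotopies on skeleta for maps into arbitrary spaces, and the two stages of the deformation
of the identity.
-/

open scoped unitInterval Topology Topology.Homotopy
open Set

noncomputable section

namespace Pool.Agent.Work.MP_d1e9a6_pr.Top

variable {n : ℕ} {K : Set (Finset (Fin n))}

/-- every map on the 2-skeleton is null-homotopic on the 1-skeleton -/
def ScStep (K : Set (Finset (Fin n))) : Prop :=
  ∀ (Y : Type) [TopologicalSpace Y] (f : real K → Y), ContinuousOn f (sk K 3) →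
    ∃ (y0 : Y) (G : real K × I → Y), ContinuousOn G (sk K 2 ×ˢ univ) ∧
      ∀ x ∈ sk K 2, G (x, 0) = f x ∧ G (x, 1) = y0

theorem T1 (hK : IsCpx K) (hsc : ScStep K) (N : ℕ) (hCoh : ∀ j, 1 ≤ j → j ≤ N → Coh hK j)
    {Y : Type} [TopologicalSpace Y] {f : real K → Y} (hf : ContinuousOn f (sk K (N + 3))) :
    ∃ (y0 : Y) (g : real K → Y), HtpyOn (sk K (N + 3)) f g ∧ ContinuousOn g (sk K (N + 3)) ∧
      ∀ y ∈ sk K (N + 2), g y = y0 := by
  obtain ⟨y0, G, h1, h2⟩ := hsc Y f (hf.mono (sk_mono (by omega)))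
  refine ⟨y0, ?_⟩
  have key : ∀ i, i ≤ N → ∃ g : real K → Y, HtpyOn (sk K (N + 3)) f g ∧
      ContinuousOn g (sk K (N + 3)) ∧ ∀ y ∈ sk K (i + 2), g y = y0 := by
    intro i
    induction i with
    | zero =>
      intro _
      obtain ⟨G', h5, h6, h7⟩ := sk_hep hK (by omega : 2 ≤ N + 3) h1 hf
        (fun y hy => (h2 y hy).1)
      refine ⟨fun y => G' (y, 1), ⟨G', h5, fun y hy => ⟨h7 y hy, rfl⟩⟩, ?_, ?_⟩
      · exact h5.comp (by fun_prop) (fun y hy => ⟨hy, mem_univ _⟩)
      · intro y hy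
        change G' (y, 1) = y0
        rw [h6 y hy]
        exact (h2 y hy).2
    | succ i ih =>
      intro hi
      obtain ⟨g, hg1, hg2, hg3⟩ := ih (by omega)
      obtain ⟨g', h3, h4, h5⟩ := T1step hK i (hCoh (i + 1) (by omega) hi)
        (by omega : i + 4 ≤ N + 3) hg2 hg3
      exact ⟨g', hg1.trans h3, h4, h5⟩
  exact key N le_rfl

/-- The deformation of the identity in two stages. The set `sk K (m+3)` is the
`(k-1)`-skeleton, `k = m + 3`. -/
theorem stages (hK : IsCpx K) (hsc : ScStep K) (m : ℕ)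
    (hdim : ∀ s ∈ K, s.card ≤ m + 4) (hCoh : ∀ j, 1 ≤ j → j ≤ m + 1 → Coh hK j) :
    ∃ (y0 : real K) (g2 g3 : C(real K, real K)) (H1 H2 : C(real K × I, real K)),
      y0 ∈ sk K (m + 3) ∧
      (∀ y, H1 (y, 0) = y) ∧ (∀ y, H1 (y, 1) = g2 y) ∧
      (∀ y ∈ sk K (m + 3), ∀ t, H1 (y, t) ∈ sk K (m + 3)) ∧
      (∀ y, H2 (y, 0) = g2 y) ∧ (∀ y, H2 (y, 1) = g3 y) ∧
      (∀ y ∈ sk K (m + 2), ∀ t, H2 (y, t) ∈ sk K (m + 3)) ∧
      (∀ y ∈ sk K (m + 3), g3 y = y0) := by
  classical
  have huniv : sk K (m + 4) = univ := sk_univ hdim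
  -- stage one, inside `A`
  let A : Set (real K) := sk K (m + 3)
  have hexf : ∃ f : real K → A, ∀ y (hy : y ∈ A), f y = ⟨y, hy⟩ := by
    by_cases hA : Nonempty A
    · exact ⟨fun y => if hy : y ∈ A then ⟨y, hy⟩ else hA.some, fun y hy => dif_pos hy⟩
    · have : IsEmpty (real K) := by
        -- a nonempty complex has a vertex
        refine ⟨fun y => hA ?_⟩
        obtain ⟨v, hv⟩ := supp_nonempty y.2.2.1
        have hvK : ({v} : Finset (Fin n)) ∈ K :=
          hK.down _ y.2.2.2 _ (by simpa using hv) (Finset.singleton_nonempty v)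
        have hsv : supp (Pi.single v (1 : ℝ) : Fin n → ℝ) = {v} := by
          ext i
          rw [mem_supp, Finset.mem_singleton]
          by_cases h : i = v
          · subst h; simp
          · simp [h]
        refine ⟨⟨⟨Pi.single v 1, ?_, ?_, ?_⟩, ?_⟩⟩
        · intro i
          by_cases h : i = v
          · subst h; simp
          · simp [h]
        · simp
        · rw [hsv]; exact hvK
        · change (supp (Pi.single v (1 : ℝ) : Fin n → ℝ)).card ≤ m + 3
          rw [hsv]; simp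
      exact ⟨fun y => (this.false y).elim, fun y => (this.false y).elim⟩
  obtain ⟨f, hf⟩ := hexf
  have hfc : ContinuousOn f A := by
    rw [continuousOn_iff_continuous_domRestrict]
    have : (A.domRestrict f) = id := by
      funext y
      exact hf y.1 y.2
    rw [this]
    exact continuous_id
  obtain ⟨yA, gA, ⟨GA, hG1, hG2⟩, hg1, hg2⟩ := T1 hK hsc m (fun j h1 h2 => hCoh j h1 (by omega))
    (Y := A) (f := f) hfc
  obtain ⟨G, hG3, hG4, hG5⟩ := sk_hep hK (by omega : m + 3 ≤ m + 4)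
    (G := fun p => (GA p : real K)) (continuous_subtype_val.comp_continuousOn hG1)
    (g := fun y => y) continuousOn_id (by
      intro y hy
      change ((GA (y, 0) : A) : real K) = y
      rw [(hG2 y hy).1, hf y hy])
  rw [huniv, univ_prod_univ] at hG3
  have hG3' := continuousOn_univ.1 hG3
  let H1 : C(real K × I, real K) := ⟨G, hG3'⟩
  let g2 : C(real K, real K) := ⟨fun y => G (y, 1), hG3'.comp (by fun_prop)⟩
  have hg2A : ∀ y ∈ A, g2 y = (gA y : real K) := by
    intro y hy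
    change G (y, 1) = _
    rw [hG4 y hy 1]
    change ((GA (y, 1) : A) : real K) = _
    rw [(hG2 y hy).2]
  have hg20 : ∀ y ∈ sk K (m + 2), g2 y = yA := by
    intro y hy
    rw [hg2A y (sk_mono (by omega) hy), hg2 y hy]
  -- stage two
  obtain ⟨uA, huA⟩ := exists_loops hK (m + 2) (y0 := yA) hg1 hg2
  let ι : C(A, real K) := ⟨Subtype.val, continuous_subtype_val⟩
  let u : Simp K (m + 2) → Ω^ (Fin (m + 2)) (real K) (yA : real K) :=
    fun τ => push ι rfl (uA τ)
  have hu : ∀ τ x, g2 (cell hK τ x) = u τ x := by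
    intro τ x
    rw [hg2A _ ((cellStr hK (m + 2)).mem τ x), huA]
    rfl
  let A' : AddSubgroup (PiA m (real K) (yA : real K)) :=
    (piMap (m := m) (y0 := yA) (z0 := (yA : real K)) ι rfl).range
  have hmemA' : ∀ τ, cls (u τ) ∈ A' := fun τ => ⟨cls (uA τ), rfl⟩
  have hcoc := fun ρ => cocycle hK m (y0 := (yA : real K)) (g := g2)
    g2.continuous.continuousOn hg20 hu ρ
  obtain ⟨c, hc⟩ := hCoh (m + 1) (by omega) (by omega) A'
    (fun τ => ⟨- cls (u τ), A'.neg_mem (hmemA' τ)⟩) (by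
      intro ρ
      apply Subtype.ext
      rw [AddSubgroup.val_finsetSum]
      simp only [AddSubgroup.coe_zsmul, AddSubgroup.coe_zero, smul_neg,
        Finset.sum_neg_distrib]
      rw [neg_eq_zero]
      exact hcoc ρ)
  have hvex : ∀ ρ : Simp K (m + 1), ∃ w : Ω^ (Fin (m + 2)) A yA,
      cls (push ι (rfl : ι yA = (yA : real K)) w) = (c ρ : PiA m (real K) (yA : real K)) := by
    intro ρ
    obtain ⟨a, ha⟩ := (c ρ).2
    obtain ⟨w, rfl⟩ := cls_surj a
    exact ⟨w, ha⟩
  choose vA hvA using hvex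
  obtain ⟨G2, k1, k2, k3, k4⟩ := lemM hK m (y0 := (yA : real K)) (g0 := g2)
    (g1 := fun _ => (yA : real K)) u (fun _ => GenLoop.const)
    (fun ρ => push ι rfl (vA ρ)) hg20 (fun _ _ => rfl) hu (fun _ _ => rfl) (by
      intro τ
      have h := congrArg Subtype.val (hc τ)
      rw [AddSubgroup.val_finsetSum] at h
      simp only [AddSubgroup.coe_zsmul] at h
      rw [cls_const, zero_sub]
      simp only [hvA]
      exact h)
  obtain ⟨G2', k5, k6, k7⟩ := sk_hep hK (by omega : m + 3 ≤ m + 4) k1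
    (g := g2) g2.continuous.continuousOn (fun y hy => (k2 y hy).1)
  rw [huniv, univ_prod_univ] at k5
  have k5' := continuousOn_univ.1 k5
  let H2 : C(real K × I, real K) := ⟨G2', k5'⟩
  let g3 : C(real K, real K) := ⟨fun y => G2' (y, 1), k5'.comp (by fun_prop)⟩
  refine ⟨yA, g2, g3, H1, H2, yA.2, ?_, fun y => rfl, ?_, ?_, fun y => rfl, ?_, ?_⟩
  · intro y
    exact hG5 y (by rw [huniv]; exact mem_univ _)
  · intro y hy t
    change G (y, t) ∈ A
    rw [hG4 y hy t]
    exact (GA (y, t)).2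
  · intro y
    exact k7 y (by rw [huniv]; exact mem_univ _)
  · intro y hy t
    change G2' (y, t) ∈ A
    rw [k6 y (sk_mono (by omega) hy) t]
    rcases (cellStr hK (m + 1)).cover y hy with h | ⟨ρ, x, rfl⟩
    · rw [k3 y h t]; exact yA.2
    · rw [k4]
      exact (vA ρ (Fin.cons t x)).2
  · intro y hy
    change G2' (y, 1) = _
    rw [k6 y hy]
    exact (k2 y hy).2

end Pool.Agent.Work.MP_d1e9a6_pr.Top
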